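import Pool.Agent.Q91.PT.Stm3

/-!
# Project PT (helper91), part 7: the ratio theorem in the perimeter at a fixed area with the rate `log² n / √n`

Second order version of part 6: the smoothed indicator `ph a` changes under two insertions like a product, up to
errors of second order, so that the logarithmic convexity has an error of order `1/n` instead of `1/√n`.
-/

set_option autoImplicit false

namespace Pool.Agent.Q91.PT

open Finset Pool.Agent.H976R2 Pool.Agent.H976R2.Lip Pool.Agent.H739K Pool.Agent.H924P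
open scoped Classical

noncomputable section

/-- the change of the number of flippable corners under an insertion -/
def dK (w : List Dir) (p : ℕ × Dir) : ℤ := ((Fl (ins w p.1 p.2)).card : ℤ) - (Fl w).card

/-- the change of `base` under an insertion -/
def dB (w : List Dir) (p : ℕ × Dir) : ℤ := base (ins w p.1 p.2) - base w

/-- JOB MAT (uses `S_fla`, `S_flb`): insertions act locally.  Proof.  For a word `u` let `FC u = {cl u k : k ∈ Fl u}`
(`card (FC u) = card (Fl u)`: different flippable corners have different cells, `S_flb`).  A cell `c` (even lower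
left corner) is in `FC u` iff two adjacent sides of `c` are steps of `u` (with their common vertex as a site number
`1 ≤ k < length`) and the vertex of `c` opposite to it is not a site of `u`: this depends only on the sites and
steps of `u` at `c`.  Let `p = (i,e)`, `w' = ins w i e` with the two new sites `x1, x2` next to `PP w i`,
`q = (i',e')`; `m q = (i', e')` if `i' < i`, `(i' + 2, e')` if `i' > i`; `X` = the `q ∈ adm w` such that `PP w i'`
is within distance `10` (both coordinates) of `PP w i` (at most `21² * 4` of them).  For `q ∈ adm w \ X`: the two new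
sites of the insertion `q` are not sites of `w`, and not `x1, x2`, so `m q ∈ adm w'`; `w'` and `w` have the same sites
and steps within distance 5 of `PP w i'`, and so have `ins w' (m q)` and `ins w q`; `FC (ins w q)` and `FC w` differ
only in cells within distance 3 of `PP w i'`, and so do `FC (ins w' (m q))` and `FC w'`; hence
`card (FC (ins w' (m q))) - card (FC w') = card (FC (ins w q)) - card (FC w)`.  An insertion changes the state
(enclosed or not) of exactly one cell, the one spanned by the bump (`AREAx.encl_same` in `H739K/AREA.lean` for the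
other cells; parity computation as in `local_par` for this cell), so the states of all cells near `PP w i'` agree
for `w, w'` and for `ins w q, ins w' (m q)`; hence the changes of the area and of `Dn` (the number of enclosed
cells of `FC`) are the same.  `card (adm w') ≤ card (adm w) + c`: each `(k, e') ∈ adm w'` with `PP w' k` at distance
`> 10` from `PP w i` comes from `adm w`. -/
def S_mat : Prop := ∃ c : ℕ, ∀ w : List Dir, 3 ≤ w.length → Saw w → sq w = 1 → ∀ p ∈ adm w,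
  ∃ (m : ℕ × Dir → ℕ × Dir) (X : Finset (ℕ × Dir)), X ⊆ adm w ∧ X.card ≤ c ∧
    Set.InjOn m ((adm w \ X : Finset (ℕ × Dir)) : Set (ℕ × Dir)) ∧
    (∀ q ∈ adm w \ X, m q ∈ adm (ins w p.1 p.2) ∧ dK (ins w p.1 p.2) (m q) = dK w q ∧
      dB (ins w p.1 p.2) (m q) = dB w q) ∧
    (adm (ins w p.1 p.2)).card ≤ (adm w).card + c

/-- JOB BC2: binomial probabilities to first order.  Proof.  Let `x = (K - 2j)/K`, `|x| ≤ 1/8`.
`bn K (j-1) / bn K j = j/(K-j+1)`, `bn K (j+1) / bn K j = (K-j)/(j+1)`, `bn (K+1) j / bn K j = (K+1)/(2(K+1-j))`,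
`bn (K-1) j / bn K j = 2(K-j)/K`: with `j = K(1-x)/2` these are `1 - 2x`, `1 + 2x`, `1 - x`, `1 + x` up to
`O(x² + 1/K)` for `K` large; iterate at most 40 steps (`x` changes by `O(1/K)` in each step).  For the finitely many
other `K`: all ratios are bounded (`bn K j > 0` since `0 ≤ j ≤ K`). -/
def S_bc2 : Prop := ∃ C : ℝ, 0 < C ∧ ∀ (K : ℕ) (j κ β : ℤ), 1 ≤ K → |κ| ≤ 20 → |β| ≤ 20 →
  |2 * (j : ℝ) - K| ≤ K / 8 →
  |bn (K + κ).toNat (j - β) - bn K j * (1 - (κ + 2 * β) * ((K - 2 * j) / K))| ≤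
    C * bn K j * (((K - 2 * j) / K) ^ 2 + 1 / K)

/-- JOB TAL: tails.  Proof.  `bn K' j' e^{θ (2j' - K')} ≤ cosh(θ)^{K'} ≤ e^{θ² K'/2}` (binomial theorem), so
`bn K' j' ≤ exp(-(2j'-K')²/(2K'))` for `K' ≥ 1`, and `|2j' - K'| ≥ K/8 - 60`. -/
def S_tal : Prop := ∃ C c : ℝ, 0 < C ∧ 0 < c ∧ ∀ (K K' : ℕ) (j j' : ℤ), 1 ≤ K →
  |(K' : ℤ) - K| ≤ 20 → |j' - j| ≤ 20 → (K : ℝ) / 8 < |2 * (j : ℝ) - K| → bn K' j' ≤ C * Real.exp (-c * K)

/-- JOB PH2 (uses `S_abs`, `S_flp`): as `S_phs`, with squares. -/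
def S_ph2 : Prop := ∀ n : ℕ, 3 ≤ n → ∀ (a : ℤ) (κ : ℝ), 0 < κ →
  ∑ w ∈ XB n Set.univ κ, ph a w * ((2 * ((a - base w : ℤ) : ℝ) - (Fl w).card) / (Fl w).card) ^ 2 =
    ∑ w ∈ (XB n Set.univ κ).filter (fun w => (ar w : ℤ) = a),
      ((2 * (Dn Fl bb w : ℝ) - (Fl w).card) / (Fl w).card) ^ 2

/-- JOB EN2 (uses `S_abs`): entropy inequality for squares.  Proof.  Let `s = K - 2D`, `K ≤ n`.  For integer
`m ≥ 0`, or by the Gaussian integral `e^{s²/(4n)} = ∫ e^{s g/√(2n)} γ(dg)` and `cosh(t)^K ≤ e^{t² K/2}`: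
`∑_X e^{s²/(4n)} ≤ √2 card X` (alternative: any bound `∑_X e^{s²/(8n)} ≤ 2 card X` from the tail
`#{|s| ≥ u} ≤ 2 e^{-u²/(2n)} card X` given by `S_abs`/`S_mgf`, then with the constant `8` below).  By convexity
`exp((1/N) ∑_Y s²/(8n)) ≤ 2 card X / N`. -/
def S_en2 : Prop := ∀ (α : Type) (X : Finset α) (F : α → Finset ℕ)
  (g : α → ℕ → α) (b : α → ℕ → Prop) (A : α → ℤ), Flips X F g b A → ∀ n : ℕ, 1 ≤ n →
  (∀ x ∈ X, (F x).card ≤ n) → ∀ Y : Finset α, Y ⊆ X → Y.Nonempty →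
  ∑ x ∈ Y, (((F x).card : ℝ) - 2 * Dn F b x) ^ 2 ≤ 8 * n * Y.card * (1 + Real.log (X.card / Y.card))

/-- the sum of `φ` over the words obtained by one insertion -/
def T1 (φ : List Dir → ℝ) (w : List Dir) : ℝ := ∑ p ∈ adm w, φ (ins w p.1 p.2)

/-- the sum of `φ` over the words obtained by two insertions -/
def T2 (φ : List Dir → ℝ) (w : List Dir) : ℝ := ∑ p ∈ adm w, T1 φ (ins w p.1 p.2)

/-- JOB TR2: Kesten's counting of insertions.  Proof.  As `RATIO.transfer'` in `H739K/RATIO.lean`: by `sum_ins`,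
`∑_{w' ∈ KP (n+2)} ψ(w') bc w'/bt w' = ∑_{w ∈ KP n} ∑_{p ∈ adm w} ψ(ins w p)/bt (ins w p)` (`sq_ins`; `ψ` extended by
zero), `bc/bt = 1` except for `few (n+2)`, `|1/bt (ins w p) - 1/bt w| ≤ 2·10⁷/n²` (`inv_bt_ins`),
`1/bt ≤ 2000/n` (`inv_bt_le`).  First claim: `ψ = φ`.  Second: `mm φ (n+4) = ∑_{w' ∈ KP (n+2)} T1 φ w'/bt w' + err`
(first claim at `n+2`), then `ψ = T1 φ/bt ≤ 8000` (`AA_le`) and
`|1/(bt (ins w p))² - 1/(bt w)²| ≤ C/n³`; `∑_{w' ∈ KP (n+2)} T1 φ w' ≤ (2000/n) ∑_w T2 φ w + 2(n+2) card few`. -/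
def S_tr2 : Prop := ∃ D : ℝ, 0 < D ∧ ∀ n : ℕ, 3 ≤ n → ∀ φ : List Dir → ℝ,
  (∀ w : List Dir, n ≤ w.length → w.length ≤ n + 4 → Saw w → sq w = 1 → 0 ≤ φ w ∧ φ w ≤ 1) →
  |mm φ (n + 2) - ∑ w ∈ KP n, T1 φ w / bt w| ≤
    D * ((∑ w ∈ KP n, T1 φ w) / n ^ 2 + (few (n + 2)).card) ∧
  |mm φ (n + 4) - ∑ w ∈ KP n, T2 φ w / bt w ^ 2| ≤
    D * ((∑ w ∈ KP n, T2 φ w) / n ^ 3 + (few (n + 2)).card + (few (n + 4)).card)

/-- JOB SQ2 (uses `S_ins`, `S_mat`, `S_bc2`): two insertions act like a product.  Proof.  `K = card (Fl w)`,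
`j = a - base w`, `x = (K-2j)/K`, `φ = ph a w = bn K j`; `ph a (ins w p) = bn (K + dK w p) (j - dB w p)`
`= φ (1 - l_p x + O(x² + 1/K))`, `l_p = dK w p + 2 dB w p` (bounded by `S_ins`), the sum has `card (adm w) ≤ 2 n` terms
(`AA_le`).  With `w' = ins w p` and `S_mat`: for `q ∉ X`:
`ph a (ins w' (m q)) = bn (K + dK w p + dK w q) (j - dB w p - dB w q) = φ (1 - (l_p + l_q) x + O(x² + 1/K))`, and the
other at most `2 c` elements of `adm w'` (and the `c` elements of `X`) contribute `O(φ)` each.  So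
`T2 = φ ∑_{p,q} (1 - (l_p + l_q) x) + O(n² φ (x² + 1/K + 1/n))` and
`T1² = φ² ∑_{p,q} (1 - l_p x)(1 - l_q x) + O(n² φ² (x² + 1/K))`. -/
def S_sq2 : Prop := ∃ C : ℝ, 0 < C ∧ ∀ (w : List Dir) (a : ℤ), 3 ≤ w.length → Saw w → sq w = 1 →
  1 ≤ (Fl w).card → |2 * ((a - base w : ℤ) : ℝ) - (Fl w).card| ≤ (Fl w).card / 8 →
  0 ≤ T1 (ph a) w ∧ 0 ≤ T2 (ph a) w ∧
  T1 (ph a) w ≤ C * w.length * ph a w ∧ T2 (ph a) w ≤ C * w.length ^ 2 * ph a w ∧
  T1 (ph a) w ^ 2 ≤ ph a w * T2 (ph a) w + C * (w.length : ℝ) ^ 2 * ph a w ^ 2 *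
    (((2 * ((a - base w : ℤ) : ℝ) - (Fl w).card) / (Fl w).card) ^ 2 + 1 / (Fl w).card + 1 / w.length)

/-- JOB LO2 (uses `S_ins`, `S_tal`, `S_phs`, `S_ph2`, `S_en2`, `S_tr2`, `S_sq2`, `S_cvx`, `S_flp`, `S_few`,
`H739K.S_bnd`): logarithmic convexity with an error of order `1/n`.  Proof.  `φ = ph a`, `b0 = mm φ n = Nn n a`,
`b1, b2` at `n+2, n+4` (`S_phs`), `M = card (KP n)`; `G` = the `w ∈ KP n` with `K = card (Fl w) ≥ ε n` and
`|2j-K| ≤ K/8`.  Outside `G`: `T1, T2` are at most `C n² e^{-cn}` by `S_tal` (`K ≥ ε n`; `S_ins` gives changes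
`≤ 10`, `≤ 20`) or there are only `C e^{-δ₀ n} M` such `w` and `T1 ≤ 2n`, `T2 ≤ (2n+4)²`.  `few (n+2), few (n+4) ≤
C e^{-cn} M` (`Few.few_card`, `S_bnd`).  So by `S_tr2` and `S_sq2`: `b1 ≤ S + r`, `S = ∑_G T1/bt ≤ C b0`,
`r ≤ C (b0/n + e^{-cn} M)`; `S² = (∑_G √φ · T1/(√φ bt))² ≤ b0 ∑_G T1²/(φ bt²)`
`≤ b0 (∑_G T2/bt² + C ∑_G φ (x² + 1/(ε n) + 1/n))` (`bt ≥ n/2000`) `≤ b0 (b2 + C b0/n + C e^{-cn} M + C ∑_G φ x²)`.  By
`S_ph2`, `S_en2` (`X = XB n univ (ε n)`, `Y` = those with area `a`, `N' = card Y ≤ b0`):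
`∑_G φ x² ≤ 8 n N' (1 + log(M/N'))/(ε n)²`, and `x (1 + log(M/x))` is increasing on `(0, M]`, so this is at most
`C (L/n) Q`, `Q = b0 + e^{-L} M`.  `e^{-cn} M ≤ C (L/n) e^{-L} M` for `L ≤ c₁ n`. -/
def S_lo2 : Prop := ∃ C c : ℝ, 0 < C ∧ 0 < c ∧ ∀ n : ℕ, 3 ≤ n → n % 2 = 1 → ∀ (a : ℤ) (L : ℝ), 1 ≤ L →
  L ≤ c * n →
  Nn (n + 2) a ^ 2 ≤ Nn n a * Nn (n + 4) a +
    C * (L / n) * (Nn n a + Nn (n + 2) a + Real.exp (-L) * (KP n).card) ^ 2

/-- JOB UP2 (uses `S_lo2`, `S_seq`, `H739K.S_bnd`): the ratio theorem at a fixed area, better rate.  Proof.  As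
`S_upw` with `δ' = C' H / n`, `C' ≥ 100`; `√(δ' H) = √C' H/√n`; `δ' H ≤ c` by the condition. -/
def S_up2 : Prop := ∃ K δ : ℝ, 0 < K ∧ 0 < δ ∧ ∀ n : ℕ, 3 ≤ n → n % 2 = 1 → ∀ a : ℤ, 0 < Nn n a →
  hl n a ^ 2 ≤ δ * n →
  |Nn (n + 2) a / (H981.mu ^ 2 * Nn n a) - 1| ≤ K * (hl n a / Real.sqrt n)

/-- JOB TV2 (uses `S_up2`, `H739K.S_bnd`): total variation, better rate.  Proof.  As `S_tvw`, with
`r = (log n)²/√n`; for the ratio `M_{n+2}/(mu² M_n)` of all polygons use the rate `log n/√n` or `√(log³ n/n)`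
(`Pool/Agent/W387/Q/Hyp.lean`, `ra`, or the sum over the good areas together with `S_up2` at `n` and the tails: the
areas with `q' ≥ n^{-6}` and `q < n^{-6}` contribute little by `S_up2` applied at `n + 2` backwards). -/
def S_tv2 : Prop := ∃ K : ℝ, 0 < K ∧ ∀ n : ℕ, 3 ≤ n → n % 2 = 1 → ∀ S : Finset ℤ,
  ∑ a ∈ S, |Nn (n + 2) a / (KP (n + 2)).card - Nn n a / (KP n).card| ≤ K * (Real.log n ^ 2 / Real.sqrt n)

/-- JOB FN6 (uses `S_cnv`, `S_few`, `S_up2`, `S_tv2`): for loops.  As `S_fn5`. -/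
def S_fn6 : Prop := ∃ K δ : ℝ, 0 < K ∧ 0 < δ ∧ ∀ n : ℕ, 2 ≤ n →
  (∀ a : ℤ, 0 < pl n Set.univ {a} →
    (Real.log n ^ 2 + Real.log (pl n Set.univ Set.univ / pl n Set.univ {a})) ^ 2 ≤ δ * n →
    |pl (n + 1) Set.univ {a} / (H981.mu ^ 2 * pl n Set.univ {a}) - 1| ≤
      K * ((Real.log n ^ 2 + Real.log (pl n Set.univ Set.univ / pl n Set.univ {a})) / Real.sqrt n)) ∧
  ∀ S : Finset ℤ,
    ∑ a ∈ S, |pl (n + 1) Set.univ {a} / pl (n + 1) Set.univ Set.univ -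
      pl n Set.univ {a} / pl n Set.univ Set.univ| ≤ K * (Real.log n ^ 2 / Real.sqrt n)

end

end Pool.Agent.Q91.PT
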