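import Pool.Agent.Q91.PT.Stm2
import Pool.Agent.Q124.PT.GR
import Pool.Agent.Q124.PT.ONE
import Pool.Agent.Q124.PT.CNT
import Pool.Agent.Q124.PT.PCS
import Pool.Agent.Q53.PT.SPL
import Pool.Agent.Q25.PT.FIL
import Pool.Agent.Q208.PT.SGA
import Pool.Agent.Q68.PT.SGB
import Pool.Agent.Q68.PT.SGC
import Pool.Agent.Q68.PT.SGD
import Pool.Agent.Q177.PT.SGE
import Pool.Agent.Q68.PT.DBL
import Pool.Agent.Q25.PT.SUR
import Pool.Agent.Q210.PT.STP
import Pool.Agent.Q210.PT.FLA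
import Pool.Agent.Q210.PT.FLB
import Pool.Agent.Q210.PT.FLC
import Pool.Agent.Q210.PT.FLD
import Pool.Agent.Q210.PT.FLE
import Pool.Agent.Q262.PT.ABS
import Pool.Agent.Q195.PT.CHR
import Pool.Agent.Q262.PT.MGF
import Pool.Agent.Q262.PT.RTI
import Pool.Agent.Q198.PT.Bin
import Pool.Agent.Q182.PT.DIF
import Pool.Agent.Q170.PT.FLP
import Pool.Agent.Q38.PT.FEW
import Pool.Agent.Q121.PT.RAT
import Pool.Agent.Q121.PT.CHP
import Pool.Agent.Q170.PT.DFP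
import Pool.Agent.Q121.PT.VER
import Pool.Agent.Q198.PT.Low
import Pool.Agent.Q31.PT.CNV
import Pool.Agent.Q231.PT.FN1
import Pool.Agent.Q231.PT.FN2
import Pool.Agent.Q231.PT.FN3

/-!
# Project PT (helper91): assembly of the first part (pattern theorem, flips, ratio theorem in the area)
-/

set_option autoImplicit false

namespace Pool.Agent.Q91.PT

theorem c_gr : S_gr := Pool.Agent.Q124.PT.t_GR
theorem c_one : S_one := Pool.Agent.Q124.PT.t_ONE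
theorem c_cnt : S_cnt := Pool.Agent.Q124.PT.t_CNT
theorem c_pcs : S_pcs := Pool.Agent.Q124.PT.t_PCS
theorem c_spl : S_spl := Pool.Agent.Q53.PT.SPL.t c_gr c_cnt c_pcs
theorem c_fil : S_fil := Pool.Agent.Q25.PT.FIL.t
theorem c_sga : S_sga := Pool.Agent.Q208.PT.SGA.t
theorem c_sgb : S_sgb := Pool.Agent.Q68.PT.SGB.t c_sga
theorem c_sgc : S_sgc := Pool.Agent.Q68.PT.SGC.t c_sga c_sgb
theorem c_sgd : S_sgd := Pool.Agent.Q68.PT.SGD.t c_sga c_sgb
theorem c_sge : S_sge := Pool.Agent.Q177.PT.SGE.t c_sga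
theorem c_dbl : S_dbl := Pool.Agent.Q68.PT.DBL.t c_sga c_sgb c_sgc c_sgd c_sge
theorem c_sur : S_sur := Pool.Agent.Q25.PT.SUR.t c_gr c_dbl
theorem c_stp : S_stp := Pool.Agent.Q210.PT.stp c_one c_spl c_sur
theorem c_fla : S_fla := Pool.Agent.Q210.PT.fla
theorem c_flb : S_flb := Pool.Agent.Q210.PT.flb
theorem c_flc : S_flc := Pool.Agent.Q210.PT.flc
theorem c_fld : S_fld := Pool.Agent.Q210.PT.fld
theorem c_fle : S_fle := Pool.Agent.Q210.PT.fle
theorem c_abs : S_abs := Pool.Agent.Q262.PT.ABS.t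
theorem c_chr : S_chr := Pool.Agent.Q195.PT.CHR.t c_abs
theorem c_mgf : S_mgf := Pool.Agent.Q262.PT.MGF.t c_abs
theorem c_rti : S_rti := Pool.Agent.Q262.PT.RTI.t c_abs c_mgf
theorem c_bin : S_bin := Pool.Agent.Q198.PT.Bin.t
theorem c_dif : S_dif := Pool.Agent.Q182.PT.DIF.t c_abs c_bin
theorem c_flp : S_flp := Pool.Agent.Q170.PT.FLP.t c_fla c_flb c_flc c_fld
theorem c_few : S_few := Pool.Agent.Q38.PT.FEW.t c_stp c_fil c_fle
theorem c_rat : S_rat := Pool.Agent.Q121.PT.RAT.t c_rti c_flp c_few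
theorem c_chp : S_chp := Pool.Agent.Q121.PT.CHP.t c_chr c_flp c_few
theorem c_dfp : S_dfp := Pool.Agent.Q170.PT.DFP.t c_dif c_flp c_few
theorem c_ver : S_ver := Pool.Agent.Q121.PT.VER.t
theorem c_low : S_low := Pool.Agent.Q198.PT.Low.t c_ver
theorem c_cnv : S_cnv := Pool.Agent.Q31.PT.CNV.t
theorem c_fn1 : S_fn1 := Pool.Agent.Q231.PT.FN1.t c_cnv c_few c_rat
theorem c_fn2 : S_fn2 := Pool.Agent.Q231.PT.FN2.t c_cnv c_chp
theorem c_fn3 : S_fn3 := Pool.Agent.Q231.PT.FN3.t c_cnv c_dfp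

end Pool.Agent.Q91.PT
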