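import Pool.Agent.Q91.PT.AllA
import Pool.Agent.Q91.PT.Stm4
import Pool.Agent.H739K.All1
import Pool.Agent.H739K.AREA
import Pool.Agent.Q166.PT.INS
import Pool.Agent.Q195.PT.PHS
import Pool.Agent.Q129.PT.Bc2
import Pool.Agent.Q129.PT.Seq
import Pool.Agent.Q14.PT.MAT
import Pool.Agent.Q14.PT.LO2
import Pool.Agent.Q251.PT.EN2
import Pool.Agent.Q251.PT.TR2
import Pool.Agent.Q176.PT.SQ2
import Pool.Agent.Q280.PT.PH2
import Pool.Agent.Q280.PT.UP2
import Pool.Agent.Q280.PT.TV2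
import Pool.Agent.Q280.PT.FN6

/-!
# Project PT (helper91): assembly of the second part (ratio theorem in the perimeter at a fixed area)
-/

set_option autoImplicit false

namespace Pool.Agent.Q91.PT

theorem c_bnd : Pool.Agent.H739K.S_bnd := Pool.Agent.H739K.bnd
theorem c_ins : S_ins := Pool.Agent.Q166.PT.INS.t c_fla Pool.Agent.H739K.AREA_proof
theorem c_phs : S_phs := Pool.Agent.Q195.PT.PHS.t c_abs c_flp
theorem c_bc2 : S_bc2 := Pool.Agent.Q129.PT.bc2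
theorem c_tal : S_tal := Pool.Agent.Q129.PT.tal
theorem c_seq : S_seq := Pool.Agent.Q129.PT.seq
theorem c_mat : S_mat := Pool.Agent.Q14.PT.MAT.t
theorem c_ph2 : S_ph2 := Pool.Agent.Q280.PT.PH2.t c_abs c_flp
theorem c_en2 : S_en2 := Pool.Agent.Q251.PT.EN2.t c_abs
theorem c_tr2 : S_tr2 := Pool.Agent.Q251.PT.TR2.t
theorem c_sq2 : S_sq2 := Pool.Agent.Q176.PT.SQ2.t c_ins c_mat c_bc2
theorem c_lo2 : S_lo2 :=
  Pool.Agent.Q14.PT.LO2.t c_ins c_tal c_phs c_ph2 c_en2 c_tr2 c_sq2 c_flp c_few c_bnd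
theorem c_up2 : S_up2 := Pool.Agent.Q280.PT.UP2.t c_lo2 c_seq
theorem c_tv2 : S_tv2 := Pool.Agent.Q280.PT.TV2.t c_up2
theorem c_fn6 : S_fn6 := Pool.Agent.Q280.PT.FN6.t c_cnv c_up2 c_tv2

end Pool.Agent.Q91.PT
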