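import Pool.Agent.Q91.PT.AllA
import Pool.Agent.Q121.PT.MEA
import Pool.Agent.Q153.PT.FN4

/-!
# Project PT (helper91): assembly, lower bounds for the area
-/

set_option autoImplicit false

namespace Pool.Agent.Q91.PT

theorem c_mea : S_mea := Pool.Agent.Q121.PT.MEA.t c_low c_flp c_few c_mgf
theorem c_fn4 : S_fn4 := Pool.Agent.Q153.PT.FN4.t c_cnv c_few c_mea

end Pool.Agent.Q91.PT
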