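import Pool.Agent.H739K.Defs
import Pool.Agent.H976R2.KLip

/-!
# Project PT (helper91): Kesten's pattern theorem for self-avoiding words on `ℤ²`, statements

Words are lists of directions (`H976R2`): `SW n` = self-avoiding words of length `n`, `PP w i` = site number
`i` of the word (`i ≤ w.length`), `lt w i` = letter number `i`, `dv d` = the unit vector of the letter `d`.
`H981.mu` is the connective constant.  Useful: `PP_inj`, `PP_succ` (H976R2.KLip), `mem_SW`, `saw_iff_pos`,
`Saw.left`, `Saw.right`.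

Every `S_...` below is one lemma job; its proof is in the docstring.  A job file
`Pool/Agent/Q<seat>/PT/<JOB>.lean` proves `theorem t : Pool.Agent.Q91.PT.S_...` (hypotheses: only the statements
named in the docstring as `uses`).
-/

set_option autoImplicit false

namespace Pool.Agent.Q91.PT

open Finset Pool.Agent.H976R2 Pool.Agent.H976R2.Lip Pool.Agent.H739K Pool.Agent.H924P
open scoped Classical

noncomputable section

/-- occurrences of the pattern `Q` in the word `w` (index of the first letter) -/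
def occS (Q w : List Dir) : Finset ℕ :=
  (range (w.length + 1)).filter (fun i => (w.drop i).take Q.length = Q)

/-- the number of occurrences of `Q` in `w` -/
def occ (Q w : List Dir) : ℕ := (occS Q w).card

/-- `q` is in the box of radius `r` around `p` -/
def inB (r : ℕ) (p q : ℤ × ℤ) : Prop := |q.1 - p.1| ≤ (r : ℤ) ∧ |q.2 - p.2| ≤ (r : ℤ)

/-- `p` is on the boundary of the box of radius `r` around `0` -/
def ring (r : ℕ) (p : ℤ × ℤ) : Prop := max |p.1| |p.2| = (r : ℤ)

/-- the times at which the word visits the box around its site number `j` -/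
def vs (r : ℕ) (w : List Dir) (j : ℕ) : Finset ℕ :=
  (range (w.length + 1)).filter (fun i => inB r (PP w j) (PP w i))

/-- the `j < length` such that the box around site `j` is visited at least `k` times -/
def EK (r k : ℕ) (w : List Dir) : Finset ℕ :=
  (range w.length).filter (fun j => k ≤ (vs r w j).card)

/-- the local version of `EK`: at least `k` visits at times `i` with `|i - j| ≤ m` -/
def EL (r k m : ℕ) (w : List Dir) : Finset ℕ :=
  (range w.length).filter (fun j => k ≤ ((vs r w j).filter (fun i => i ≤ j + m ∧ j ≤ i + m)).card)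

/-- the `j`, not near the ends, such that all visits of the box around site `j` are at times `i` with
`|i - j| ≤ m` -/
def FS (r m : ℕ) (w : List Dir) : Finset ℕ :=
  (range w.length).filter (fun j => m + 1 ≤ j ∧ j + m + 1 ≤ w.length ∧
    ∀ i ∈ vs r w j, i ≤ j + m ∧ j ≤ i + m)

/-- exponentially few words (compared with `mu ^ n`) -/
def Sm (B : ℕ → Finset (List Dir)) : Prop :=
  ∃ C θ : ℝ, 0 < C ∧ 0 < θ ∧ θ < 1 ∧ ∀ n : ℕ, ((B n).card : ℝ) ≤ C * (θ * H981.mu) ^ n

/-- the induction statement: exponentially few words have at most `ε n` occurrences of `Q` and at most `a n`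
sites whose box is visited at least `k` times -/
def SK (r : ℕ) (Q : List Dir) (k : ℕ) : Prop := ∃ a ε : ℝ, 0 < a ∧ 0 < ε ∧
  Sm (fun n => (SW n).filter (fun w => (occ Q w : ℝ) ≤ ε * n ∧ ((EK r k w).card : ℝ) ≤ a * n))

/-! ## Part 1: the pattern theorem -/

/-- JOB GR.  Proof.  `mu`: `BNDx.mu_ge`, `BNDx.card_SW` and `H981.eventually_le` in
`Pool/Agent/H739K/BND.lean`; `mu ≤ 4`: `(SW n).card ≤ 4 ^ n` (words of length `n`).  For finitely many small `n`
enlarge `A`. -/
def S_gr : Prop := 2.43 ≤ H981.mu ∧ H981.mu ≤ 4 ∧ (∀ n : ℕ, ((SW n).card : ℝ) ≤ 4 ^ n) ∧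
  ∀ δ : ℝ, 0 < δ → ∃ A : ℝ, 0 < A ∧ ∀ n : ℕ, ((SW n).card : ℝ) ≤ A * (H981.mu * (1 + δ)) ^ n

/-- JOB ONE.  Proof.  (1) `EK r 1 w = range w.length` (`j ∈ vs r w j`), so with `a = 1/2` the set is empty for
`n ≥ 1`.  (2) `(vs r w j).card ≤ (2r+1)^2` for self-avoiding `w` (`PP_inj`: the visits are different points of the
box), so `EK r ((2r+1)^2+1) w = ∅` and the second condition of `SK` is empty. -/
def S_one : Prop := (∀ (r : ℕ) (Q : List Dir), SK r Q 1) ∧
  ∀ (r : ℕ) (Q : List Dir), SK r Q ((2 * r + 1) ^ 2 + 1) → ∃ ε : ℝ, 0 < ε ∧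
    Sm (fun n => (SW n).filter (fun w => (occ Q w : ℝ) ≤ ε * n))

/-- JOB CNT: few words have few blocks outside of a small set `Bd` of words of length `s`.
Proof.  Let `t = 4 ^ s / β ≥ 1`.  `w ↦ (blocks number 0..q-1, rest)` is injective from `SW (q s + ρ)` to
`(SW s)^q × {words of length ρ}`.  If `w` has at most `κ q` blocks outside `Bd` then
`1 ≤ t ^ (κ q) * ∏_i f(block i)` with `f = 1` on `Bd` and `f = 1/t` outside.  So the number is at most
`t ^ (κ q) * (∑_{u ∈ SW s} f u) ^ q * 4 ^ ρ` and `∑ f ≤ β + 4 ^ s / t = 2 β`.  (Induction on `q` for the sum over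
words is an alternative to the product.) -/
def S_cnt : Prop := ∀ (s : ℕ) (Bd : Finset (List Dir)) (κ β : ℝ), 1 ≤ s → Bd ⊆ SW s → 0 ≤ κ → 0 < β →
  β ≤ 4 ^ s → (Bd.card : ℝ) ≤ β → ∀ q ρ : ℕ,
  (((SW (q * s + ρ)).filter (fun w =>
    ((((range q).filter (fun i => (w.drop (i * s)).take s ∉ Bd)).card : ℕ) : ℝ) ≤ κ * q)).card : ℝ) ≤
    (((4 : ℝ) ^ s / β) ^ κ * (2 * β)) ^ q * 4 ^ ρ

/-- JOB PCS: additivity over blocks.  Proof.  An occurrence at `i'` in block `i` is an occurrence at `i s + i'` in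
`w` (with `i' + Q.length ≤ s`, as `Q` is not empty), different blocks give different indices; the sites of block
`i` are `PP w (i s + j') - PP w (i s)`, `inB` is invariant under translations, visits inside the block are local
visits with window `s`. -/
def S_pcs : Prop := ∀ (r k s q : ℕ) (Q w : List Dir), 1 ≤ s → Q ≠ [] → q * s ≤ w.length →
  ∑ i ∈ range q, occ Q ((w.drop (i * s)).take s) ≤ occ Q w ∧
  ∑ i ∈ range q, (EK r k ((w.drop (i * s)).take s)).card ≤ (EL r k s w).card

/-- JOB SPL (uses `S_gr`, `S_cnt`, `S_pcs`).  Proof.  Let `a, ε, C, θ` be as in `SK`.  For `s` large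
`β := C (θ mu)^s ≤ 4^s`.  `Bd` := the set of `SK` for `n = s` (`card ≤ β`).  Choose `κ > 0` with
`(4 / (θ mu)) ^ κ ≤ θ ^ (-1/4)` and then `s` so large that `β ≤ 4^s` and `2 C (C^{-κ}) ≤ θ ^ (- s / 4)`; then
`((4^s/β)^κ * 2β) ≤ (θ^(1/2) mu)^s`.  If `w ∈ SW n`, `n = q s + ρ`, `ρ < s`, `q ≥ 1`, has
`occ Q w ≤ ε' n` and `card EL ≤ a' n`, then the number of blocks outside `Bd` is at most
`occ / (ε s) + card EL / (a s) ≤ (ε'/ε + a'/a) n / s ≤ κ q` if `ε'/ε + a'/a ≤ κ/2` (`S_pcs`; `n ≤ 2 q s`).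
So by `S_cnt` the number is at most `(θ^(1/2) mu)^(s q) 4^s ≤ C' (θ^(1/2) mu)^n`.  `m := s`.  For `n < s` use
`4^n`. -/
def S_spl : Prop := ∀ (r k : ℕ) (Q : List Dir), Q ≠ [] → SK r Q k → ∃ (m : ℕ) (a ε : ℝ), 1 ≤ m ∧ 0 < a ∧
  0 < ε ∧ Sm (fun n => (SW n).filter (fun w => (occ Q w : ℝ) ≤ ε * n ∧
    ((EL r k m w).card : ℝ) ≤ a * n))

/-- a system of paths `fl x y` from `x` to `y` inside the box of radius `r` around `0`, for different points `x, y`
of its boundary, all containing the pattern `Q` -/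
structure Fill (r L : ℕ) (Q : List Dir) (fl : ℤ × ℤ → ℤ × ℤ → List Dir) : Prop where
  len : ∀ x y, ring r x → ring r y → x ≠ y → (fl x y).length ≤ L
  fin : ∀ x y, ring r x → ring r y → x ≠ y → PP (fl x y) (fl x y).length = y - x
  box : ∀ x y, ring r x → ring r y → x ≠ y → ∀ i ≤ (fl x y).length, inB r 0 (x + PP (fl x y) i)
  saw : ∀ x y, ring r x → ring r y → x ≠ y → Saw (fl x y)
  pat : ∀ x y, ring r x → ring r y → x ≠ y → 1 ≤ occ Q (fl x y)

/-- the pattern: two rooms around dead sites `v` and `v' = v + (-3, -2)`; relative to `v` its sites are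
`(2,0),(1,0),(1,1),(0,1),(-1,1),(-1,0),(-1,-1),(0,-1),(0,-2)` and then
`(-1,-2),(-2,-2),(-2,-1),(-3,-1),(-4,-1),(-4,-2),(-4,-3),(-3,-3),(-3,-4)` -/
def Q0 : List Dir := [Dir.W, Dir.N, Dir.W, Dir.W, Dir.S, Dir.S, Dir.E, Dir.S, Dir.W,
  Dir.W, Dir.N, Dir.W, Dir.W, Dir.S, Dir.S, Dir.E, Dir.S]

/-- JOB FIL.  Proof.  Take `r = 7`.  The boundary of the box is a cycle of 56 points; `g1 = (0,7)`,
`g2 = (1,7)` are neighbours on it.  `R` = the path along the whole boundary from `g1` (first step west) to `g2`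
(55 steps).  `I2` = the path from `g2` to `g1` through the interior: `(1,7)`, south to `(1,3)`, east to `(3,3)`,
south to `(3,0)`, west to `(2,0)`, then `Q0` (ending in `(-3,-4)`), west to `(-5,-4)`, north to `(-5,6)`, east to
`(0,6)`, north to `(0,7)`.  `I1` = the path from `g1` to `g2`: `(0,7)`, south to `(0,3)`, east to `(3,3)`, south to
`(3,0)`, west to `(2,0)`, `Q0`, from `(-3,-4)` south to `(-3,-5)`, east to `(4,-5)`, north to `(4,6)`, west to
`(1,6)`, north to `(1,7)`.  `P2 = R ++ I2` and `P1 = reverse(R) ++ I1` (`reverse(R)` goes from `g2` to `g1`) are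
closed self-avoiding loops.  If `x` is site `i` and `y` is site `j` of `R`: for `j < i` take the part of the loop
`P2` from `x` (forwards through `g2`, `I2`, `g1`) to `y`; for `i < j` the part of the loop `P1` from `x` (forwards,
i.e. along `R` backwards to `g1`, then `I1`, `g2`, backwards along `R`) to `y`.  All conditions are finite
(`decide` on the closed loops, or on all 56 * 55 pairs). -/
def S_fil : Prop := ∃ (r L : ℕ) (fl : ℤ × ℤ → ℤ × ℤ → List Dir), 1 ≤ r ∧ Fill r L Q0 fl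

/-- the first visit of the box around site `j` -/
def fv (r : ℕ) (w : List Dir) (j : ℕ) : ℕ := sInf {i : ℕ | i ∈ vs r w j}

/-- the last visit of the box around site `j` -/
def lv (r : ℕ) (w : List Dir) (j : ℕ) : ℕ := (vs r w j).sup id

/-- the path put in place of the part between first and last visit of the box around site `j` -/
def fw (r : ℕ) (fl : ℤ × ℤ → ℤ × ℤ → List Dir) (w : List Dir) (j : ℕ) : List Dir :=
  fl (PP w (fv r w j) - PP w j) (PP w (lv r w j) - PP w j)

/-- surgery at the site `j` -/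
def sg (r : ℕ) (fl : ℤ × ℤ → ℤ × ℤ → List Dir) (w : List Dir) (j : ℕ) : List Dir :=
  w.take (fv r w j) ++ fw r fl w j ++ w.drop (lv r w j)

/-- JOB SGA: the geometry of a surgery site.  Proof.  `j ∈ vs r w j`, so `fv ≤ j ≤ lv` and both are visits, hence
within `m` of `j`; `1 ≤ fv` and `lv + 1 ≤ length` since `m + 1 ≤ j`, `j + m + 1 ≤ length`.  The site before `fv`
is outside of the box and adjacent to site `fv`, so site `fv` is on the boundary of the box (and `1 ≤ r`, so it is
not the centre: `fv < j`); same for `lv`.  `PP_inj`. -/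
def S_sga : Prop := ∀ (r m : ℕ) (w : List Dir) (j : ℕ), 1 ≤ r → Saw w → j ∈ FS r m w →
  1 ≤ fv r w j ∧ fv r w j < j ∧ j < lv r w j ∧ lv r w j + 1 ≤ w.length ∧ j ≤ fv r w j + m ∧
  lv r w j ≤ j + m ∧ (∀ i ≤ w.length, inB r (PP w j) (PP w i) → fv r w j ≤ i ∧ i ≤ lv r w j) ∧
  ring r (PP w (fv r w j) - PP w j) ∧ ring r (PP w (lv r w j) - PP w j) ∧
  PP w (fv r w j) - PP w j ≠ PP w (lv r w j) - PP w j

/-- JOB SGB (uses `S_sga`): the sites of the new word, self-avoidance.  Proof.  The sites of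
`w.take s ++ f ++ w.drop t`: before `s` the old ones, then `PP w s + PP f i` (by `Fill.fin` the last one is
`PP w t`), then the old ones.  Self-avoidance: the first part without its last site and the last part without its
first site are outside of the box, the middle part is inside (`Fill.box`) and self-avoiding. -/
def S_sgb : Prop := ∀ (r L m : ℕ) (Q : List Dir) (fl : ℤ × ℤ → ℤ × ℤ → List Dir) (w : List Dir) (j : ℕ),
  1 ≤ r → Fill r L Q fl → Saw w → j ∈ FS r m w →
  Saw (sg r fl w j) ∧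
  (sg r fl w j).length + lv r w j = fv r w j + (fw r fl w j).length + w.length ∧
  (∀ i ≤ fv r w j, PP (sg r fl w j) i = PP w i) ∧
  (∀ i ≤ (fw r fl w j).length,
    PP (sg r fl w j) (fv r w j + i) = PP w (fv r w j) + PP (fw r fl w j) i ∧
    inB r (PP w j) (PP w (fv r w j) + PP (fw r fl w j) i)) ∧
  ∀ i, lv r w j + i ≤ w.length →
    PP (sg r fl w j) (fv r w j + (fw r fl w j).length + i) = PP w (lv r w j + i)

/-- JOB SGC (uses `S_sga`, `S_sgb`): a surgery destroys few surgery sites.  Proof.  Let `s = fv`, `t = lv`,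
`w' = sg`.  If `j' ∈ FS r m w`, `j' + m < s` and `PP w j'` has distance `> 2 r` from `PP w j` (in one coordinate)
then `j' ∈ FS r m w'`: a visit `i'` of the box around `PP w' j' = PP w j'` by `w'` is not in the middle part (the
boxes are disjoint), is not in the last part (it would be a visit of `w` at a time `≥ t > j' + m`), so it is in
the first part and a visit of `w` at the same time.  In the same way `j' ∈ FS r m w`, `t + m < j'`, distance
`> 2 r` gives `s + (fw ..).length + (j' - t) ∈ FS r m w'`.  There are at most `(t - s) + 2 m + 1 ≤ 4 m + 1` other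
times `j'` and at most `(4 r + 1)^2` sites within distance `2 r`. -/
def S_sgc : Prop := ∀ (r L m : ℕ) (Q : List Dir) (fl : ℤ × ℤ → ℤ × ℤ → List Dir) (w : List Dir) (j : ℕ),
  1 ≤ r → Fill r L Q fl → Saw w → j ∈ FS r m w →
  (FS r m w).card ≤ (FS r m (sg r fl w j)).card + (4 * m + 1 + (4 * r + 1) ^ 2)

/-- JOB SGD (uses `S_sga`, `S_sgb`): a surgery creates few occurrences.  Proof.  An occurrence in
`w.take s ++ f ++ w.drop t` starting at `i` with `i + Q.length ≤ s` is an occurrence in `w` at `i`, one with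
`s + f.length ≤ i` is an occurrence in `w` at `i - s - f.length + t` (different from the first ones if `Q` is not
empty), and there are at most `L + Q.length` other starting points. -/
def S_sgd : Prop := ∀ (r L m : ℕ) (Q : List Dir) (fl : ℤ × ℤ → ℤ × ℤ → List Dir) (w : List Dir) (j : ℕ),
  1 ≤ r → Q ≠ [] → Fill r L Q fl → Saw w → j ∈ FS r m w →
  occ Q (sg r fl w j) ≤ occ Q w + (L + Q.length)

/-- JOB SGE (uses `S_sga`, `S_sgb`): the fibres of the surgery.  Proof.  Let `sg r fl w j = w'`, `s = fv`,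
`t = lv`, `f = fw`, and let `o` be an occurrence of `Q` in `f` (`Fill.pat`), `o ≤ L`.  Then `s + o` is an
occurrence of `Q` in `w'`.  `(w, j)` is determined by `w'` and the data
`(s + o, o, f.length, (w.drop s).take (t - s), j - s)`: `w = w'.take s ++ seg ++ w'.drop (s + f.length)`.  The data
are in `occS Q w' × range (L+1) × range (L+1) × {words of length ≤ 2 m} × range (m+1)`. -/
def S_sge : Prop := ∀ (r L m : ℕ) (Q : List Dir) (fl : ℤ × ℤ → ℤ × ℤ → List Dir), 1 ≤ r → Q ≠ [] →
  Fill r L Q fl → ∃ D : ℕ, ∀ (w' : List Dir) (T : Finset (List Dir × ℕ)),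
  (∀ p ∈ T, Saw p.1 ∧ p.2 ∈ FS r m p.1 ∧ sg r fl p.1 p.2 = w') → T.card ≤ D * occ Q w'

/-- the words of length at most `N` that are self-avoiding -/
def SWle (N : ℕ) : Finset (List Dir) := (range (N + 1)).biUnion SW

/-- JOB DBL (uses `S_sga`, `S_sgb`, `S_sgc`, `S_sgd`, `S_sge`): double counting, `h` surgeries.  Proof.  Let
`c = 4 m + 1 + (4 r + 1)^2`, `V i` = the set of self-avoiding words of length `≤ n + L i` with
`occ Q w ≤ o + (L + Q.length) i` and `f ≤ (FS r m w).card + c i`.  For `i < h` and `w ∈ V i` there are at least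
`f - c h ≥ f / 2` sites `j ∈ FS r m w`, and `sg r fl w j ∈ V (i+1)` (its length is `≤ w.length + L`).  Each
`w' ∈ V (i+1)` is reached from at most `D (o + (L + Q.length) h)` pairs `(w, j)` (`S_sge`).  So
`card (V i) * (f / 2) ≤ card (V (i+1)) * D (o + (L + Q.length) h)`; multiply over `i < h`. -/
def S_dbl : Prop := ∀ (r L m : ℕ) (Q : List Dir) (fl : ℤ × ℤ → ℤ × ℤ → List Dir), 1 ≤ r → Q ≠ [] →
  Fill r L Q fl → ∃ D : ℝ, 1 ≤ D ∧ ∀ (n h : ℕ) (o f : ℝ), 0 ≤ o → 0 ≤ f →
  ((4 * m + 1 + (4 * r + 1) ^ 2 : ℕ) : ℝ) * h ≤ f / 2 →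
  (((SW n).filter (fun w => (occ Q w : ℝ) ≤ o ∧ f ≤ ((FS r m w).card : ℝ))).card : ℝ) * (f / 2) ^ h ≤
    ((SWle (n + L * h)).card : ℝ) * (D * (o + ((L + Q.length : ℕ) : ℝ) * h)) ^ h

/-- JOB SUR (uses `S_gr`, `S_dbl`).  Proof.  `h = ⌊η n⌋`, `o = ε n`, `f = a n` with small `ε, η > 0` such that
`c η ≤ a / 2` and `2 D (ε + (L + Q.length) η) / a ≤ 8^{-L} / 2`.  By `S_gr` with `0 < δ ≤ 1`:
`card (SWle (n + L h)) ≤ (n + L h + 1) A (mu (1+δ))^n 8^{L h}`.  So the number of words is at most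
`(n + L h + 1) A (mu (1+δ))^n 2^{-h}` (`n ≥ 1`), and with `1 + δ ≤ 2^{η/4}` this is at most
`C (2^{-η/2} mu)^n`. -/
def S_sur : Prop := ∀ (r L m : ℕ) (Q : List Dir) (fl : ℤ × ℤ → ℤ × ℤ → List Dir) (a : ℝ), 1 ≤ r → Q ≠ [] →
  Fill r L Q fl → 0 < a → ∃ ε : ℝ, 0 < ε ∧
  Sm (fun n => (SW n).filter (fun w => (occ Q w : ℝ) ≤ ε * n ∧ a * n ≤ ((FS r m w).card : ℝ)))

/-- JOB STP (uses `S_one`, `S_spl`, `S_sur`): the pattern theorem.  Proof.  Induction: `SK r Q 1` (`S_one`).
`SK r Q k → SK r Q (k+1)`: let `m, a₁, ε₁` be from `S_spl` and `ε₂` from `S_sur` with `a := a₁ / 2`.  If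
`j ∈ EL r k m w`, `j ∉ EK r (k+1) w` and `m + 1 ≤ j`, `j + m + 1 ≤ length` then all visits are local, i.e.
`j ∈ FS r m w`; so `card EL ≤ card FS + card (EK (k+1)) + 2 m + 2`.  Hence with `ε' = min ε₁ ε₂`, `a' = a₁ / 4` and
`n` with `2 m + 2 ≤ a₁ n / 4` the set for `(k+1, a', ε')` is contained in the union of the two exponentially small
sets.  (For the finitely many other `n` enlarge `C`.)  At `k = (2r+1)^2 + 1` use the second part of `S_one`. -/
def S_stp : Prop := ∀ (r L : ℕ) (Q : List Dir) (fl : ℤ × ℤ → ℤ × ℤ → List Dir), 1 ≤ r → Q ≠ [] →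
  Fill r L Q fl → ∃ ε : ℝ, 0 < ε ∧ Sm (fun n => (SW n).filter (fun w => (occ Q w : ℝ) ≤ ε * n))

/-! ## Part 2: flips of corners of words -/

/-- the lower left corner of the unit cell spanned by the sites `k-1, k, k+1` -/
def cl (w : List Dir) (k : ℕ) : ℤ × ℤ :=
  (min (PP w (k - 1)).1 (PP w (k + 1)).1, min (PP w (k - 1)).2 (PP w (k + 1)).2)

/-- exchange of the letters `k-1` and `k` (the corner at site `k` moves to the opposite site of its cell) -/
def sw (w : List Dir) (k : ℕ) : List Dir := w.take (k - 1) ++ lt w k :: lt w (k - 1) :: w.drop (k + 1)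

/-- the flippable corners in cells with even lower left corner -/
def Fl (w : List Dir) : Finset ℕ := (range w.length).filter (fun k => 1 ≤ k ∧
  perp (lt w (k - 1)) (lt w k) ∧ Even (cl w k).1 ∧ Even (cl w k).2 ∧ Saw (sw w k))

/-- the cell with lower left corner `c` is enclosed by the polygon of the word -/
def ins' (w : List Dir) (c : ℤ × ℤ) : Prop := Encl (w.length + 1) (lp (w.length + 1) w) c

/-- width and height of the polygon of a word -/
def dims (w : List Dir) : ℕ × ℕ :=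
  (width (w.length + 1) (lp (w.length + 1) w), height (w.length + 1) (lp (w.length + 1) w))

/-- JOB FLA: the sites of the flipped word.  Proof.  `w = w.take (k-1) ++ lt w (k-1) :: lt w k :: w.drop (k+1)`.
The new site is not a site of `w`: it is `PP (sw w k) k`, all other sites of `sw w k` and of `w` are the same, and
`PP w k ≠ PP (sw w k) k` (perpendicular letters). -/
def S_fla : Prop := ∀ (w : List Dir) (k : ℕ), Saw w → k ∈ Fl w →
  (sw w k).length = w.length ∧ Saw (sw w k) ∧ (∀ i, i ≠ k → PP (sw w k) i = PP w i) ∧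
  PP (sw w k) k = PP w (k - 1) + dv (lt w k) ∧ (∀ i ≤ w.length, PP w i ≠ PP w (k - 1) + dv (lt w k)) ∧
  sw (sw w k) k = w ∧ lt (sw w k) (k - 1) = lt w k ∧ lt (sw w k) k = lt w (k - 1) ∧
  ∀ i, i ≠ k → i + 1 ≠ k → lt (sw w k) i = lt w i

/-- JOB FLB (uses `S_fla`): flips are independent.  Proof.  Let `k, k' ∈ Fl w` be different.  The cell of `k`
contains the sites `k-1, k, k+1` and no other site of `w` (its fourth vertex is not visited by `S_fla`); a vertex
determines the even cell containing it (even lower left corner).  So the cells of `k` and `k'` are different (else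
the same three sites), hence disjoint, hence `|k - k'| ≥ 3`.  So the flip at `k` does not change the letters
`k'-1, k'` and the sites `k'-1, k', k'+1`, and `cl (sw w k) k' = cl w k'`.  `k' ∈ Fl (sw w k)`: the flip of `sw w k`
at `k'` is self-avoiding: its new site `PP w (k'-1) + dv (lt w k')` lies in the cell of `k'`, so it is not a site of
`w` and not the new site of the flip at `k` (other cell).  `Fl (sw w k) ⊆ Fl w` follows from `sw (sw w k) k = w`,
`cl (sw w k) k = cl w k`. -/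
def S_flb : Prop := ∀ (w : List Dir) (k : ℕ), Saw w → k ∈ Fl w → Fl (sw w k) = Fl w ∧
  (∀ k' ∈ Fl w, cl (sw w k) k' = cl w k' ∧ (k' ≠ k → cl w k' ≠ cl w k))

/-- JOB FLC (uses `S_fla`): a flip changes exactly one cell.  Proof.  As `encl_same` and `local_par` in
`Pool/Agent/H739K/AREA.lean` (`encl_iff`, `cw_append`): the number of edges above the cell `c` on the path
`p, p + d, p + d + e` and on `p, p + e, p + e + d` (perpendicular letters) has the same parity for all `c` except
the cell spanned by the three sites, where the parities differ (case check over the letters, `omega`).  The area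
is the number of enclosed cells (finite: `finite_encl` in `H739K/HOR.lean`); the two sets differ by one cell. -/
def S_flc : Prop := ∀ (w : List Dir) (k : ℕ), 3 ≤ w.length → Saw w → sq w = 1 → k ∈ Fl w →
  sq (sw w k) = 1 ∧ (∀ c, c ≠ cl w k → (ins' (sw w k) c ↔ ins' w c)) ∧
  (ins' (sw w k) (cl w k) ↔ ¬ ins' w (cl w k)) ∧
  (ar (sw w k) : ℤ) = ar w + (if ins' w (cl w k) then -1 else 1)

/-- JOB FLD (uses `S_fla`): flips keep width and height.  Proof.  `dims` is determined by the ranges of the two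
coordinates of the sites (`width_of`, `height_of` in `H739K/BOX.lean`).  The old corner has one coordinate in
common with site `k-1` and the other one with site `k+1`, and so has the new corner; so the sets of first
coordinates of the sites of `w` and `sw w k` are equal, and so are those of second coordinates. -/
def S_fld : Prop := ∀ (w : List Dir) (k : ℕ), Saw w → k ∈ Fl w → dims (sw w k) = dims w

/-- JOB FLE: each occurrence of `Q0` contains a flippable corner.  Proof.  Let `Q0` occur at `i` and let `v` be the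
dead site of the first room (`v = PP w (i+1) - (1,0)`).  No site of `w` is `v`: all four neighbours of `v` are
sites `i+1, i+3, i+5, i+7` of `w` and their neighbours along `w` (sites `i, i+2, i+4, i+6, i+8`) are not `v`; if
`v = PP w l` then site `l+1` or `l-1` is one of the four sites, by `PP_inj` `l` is one of the numbers
`i, i+2, i+4, i+6, i+8`, a contradiction.  The corners at `i+2, i+4, i+6` can be flipped to `v` (the flipped word is
self-avoiding since `v` is not visited); their cells have lower left corners `v`, `v - (1,0)`, `v - (1,1)`.  In the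
same way `v' = v + (-3,-2)` and the corner at `i+15` with lower left corner `v' - (1,1)`.  If `v` is (even, even)
take `k = i+2`; (odd, even): `k = i+4`; (odd, odd): `k = i+6`; (even, odd): `v' - (1,1) = v - (4,3)` is even, even,
take `k = i+15`. -/
def S_fle : Prop := (∀ w : List Dir, Saw w → ∀ i ∈ occS Q0 w, ∃ k ∈ Fl w, i < k ∧ k ≤ i + 16) ∧
  ∀ w : List Dir, Saw w → occ Q0 w ≤ 16 * (Fl w).card

/-! ## Part 3: abstract flips -/

/-- a system of independent flips on the finite set `X`: `F x` = the flippable positions, `g x k` = the flipped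
object, `b x k` = state at the position `k`, `A` = area (a flip from state true to false lowers it by one) -/
def Flips {α : Type} (X : Finset α) (F : α → Finset ℕ) (g : α → ℕ → α) (b : α → ℕ → Prop)
    (A : α → ℤ) : Prop :=
  ∀ x ∈ X, ∀ k ∈ F x, g x k ∈ X ∧ F (g x k) = F x ∧ g (g x k) k = x ∧
    (∀ k' ∈ F x, k' ≠ k → (b (g x k) k' ↔ b x k')) ∧ (b (g x k) k ↔ ¬ b x k) ∧
    A (g x k) = A x + (if b x k then -1 else 1)

/-- the number of positions in state true -/
def Dn {α : Type} (F : α → Finset ℕ) (b : α → ℕ → Prop) (x : α) : ℕ := ((F x).filter (fun k => b x k)).card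

/-- JOB ABS: the states are independent fair coins.  Proof.  `base x := A x - Dn x` and `(F x).card` are invariant
under flips.  Let `n(β, κ, j)` be the number of `x ∈ X` with `base x = β`, `(F x).card = κ`, `Dn x = j`.  The map
`(x, k) ↦ (g x k, k)` is a bijection from `{(x,k) : k ∈ F x, ¬ b x k, Dn x = j}` to
`{(x,k) : k ∈ F x, b x k, Dn x = j+1}` (same `β, κ`), so `(κ - j) n(β,κ,j) = (j+1) n(β,κ,j+1)`; hence
`n(β,κ,j) = C(κ,j) n(β,κ,0)` and `∑_j n(β,κ,j) = 2^κ n(β,κ,0)`. -/
def S_abs : Prop := ∀ (α R : Type) [Field R] [CharZero R] (X : Finset α) (F : α → Finset ℕ)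
  (g : α → ℕ → α) (b : α → ℕ → Prop) (A : α → ℤ), Flips X F g b A → ∀ H : ℤ → ℕ → ℕ → R,
  ∑ x ∈ X, H (A x - Dn F b x) (Dn F b x) (F x).card =
    ∑ x ∈ X, (∑ j ∈ range ((F x).card + 1), ((F x).card.choose j : R) *
      H (A x - Dn F b x) j (F x).card) / 2 ^ (F x).card

/-- JOB CHR (uses `S_abs`): the characteristic function.  Proof.  `H β j κ = exp(i t (β + j))`:
`2^{-κ} ∑_j C(κ,j) e^{itj} = ((1 + e^{it})/2)^κ` has absolute value `|cos(t/2)|^κ`. -/
def S_chr : Prop := ∀ (α : Type) (X : Finset α) (F : α → Finset ℕ)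
  (g : α → ℕ → α) (b : α → ℕ → Prop) (A : α → ℤ), Flips X F g b A → ∀ t : ℝ,
  ‖∑ x ∈ X, Complex.exp (Complex.I * t * A x)‖ ≤ ∑ x ∈ X, |Real.cos (t / 2)| ^ (F x).card

/-- JOB MGF (uses `S_abs`): exponential moments, and a lower bound for the variance.  Proof.  (1)
`H β j κ = exp(θ (κ - 2 j))`: `2^{-κ} ∑_j C(κ,j) e^{θ(κ-2j)} = cosh(θ)^κ ≤ e^{θ² κ / 2}`
(`Real.cosh_le_exp_half_sq`).  (2) `H β j κ = (β + j - y)^2`: its average over the binomial law is
`(β + κ/2 - y)^2 + κ/4 ≥ κ/4`. -/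
def S_mgf : Prop := ∀ (α : Type) (X : Finset α) (F : α → Finset ℕ)
  (g : α → ℕ → α) (b : α → ℕ → Prop) (A : α → ℤ), Flips X F g b A →
  (∀ (n : ℕ) (θ : ℝ), (∀ x ∈ X, (F x).card ≤ n) →
    ∑ x ∈ X, Real.exp (θ * ((F x).card - 2 * Dn F b x)) ≤ X.card * Real.exp (θ ^ 2 * n / 2)) ∧
  ∀ y : ℝ, ∑ x ∈ X, ((F x).card : ℝ) / 4 ≤ ∑ x ∈ X, ((A x : ℝ) - y) ^ 2

/-- the number of `x ∈ X` with `A x = a` -/
def NA {α : Type} (X : Finset α) (A : α → ℤ) (a : ℤ) : ℝ := ((X.filter (fun x => A x = a)).card : ℝ)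

/-- JOB RTI (uses `S_abs`, `S_mgf`): neighbouring values.  Proof.  Write `K = (F x).card ≥ κ > 0`, `D = Dn x`.  (1)
`∑_{A x = a} (K - D)/K = ∑_{A x = a+1} D/K` (`S_abs` with `H β j K = 1[β+j=a] (K-j)/K` and
`1[β+j=a+1] j/K`; `C(K,j)(K-j) = C(K,j+1)(j+1)`).  As `(K-D)/K = 1/2 + Δ/(2K)`, `D/K = 1/2 - Δ/(2K)`,
`Δ = K - 2D`: `N(a+1) - N(a) = ∑_{A x ∈ {a, a+1}} Δ/K`.  (2) For a set `Y ⊆ X` with `N = card Y > 0`:
`∑_Y |Δ| ≤ N √(2 n log(2 card X / N))`: by convexity of `exp`,
`exp(θ (1/N) ∑_Y |Δ|) ≤ (1/N) ∑_Y e^{θ|Δ|} ≤ (1/N) 2 card X e^{θ² n/2}` (`S_mgf` for `θ` and `-θ`); take logarithms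
and `θ = √(2 log(2 card X/N)/n)` (`n ≥ 1`, as `K ≥ κ > 0`). -/
def S_rti : Prop := ∀ (α : Type) (X : Finset α) (F : α → Finset ℕ)
  (g : α → ℕ → α) (b : α → ℕ → Prop) (A : α → ℤ), Flips X F g b A → ∀ (n : ℕ) (κ : ℝ), 0 < κ →
  (∀ x ∈ X, κ ≤ (F x).card ∧ (F x).card ≤ n) → ∀ a : ℤ,
  |NA X A (a + 1) - NA X A a| ≤
    (NA X A a * Real.sqrt (2 * n * Real.log (2 * X.card / NA X A a)) +
     NA X A (a + 1) * Real.sqrt (2 * n * Real.log (2 * X.card / NA X A (a + 1)))) / κ

/-- the `k`-th difference -/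
def dk (k : ℕ) (N : ℤ → ℝ) (a : ℤ) : ℝ := ∑ j ∈ range (k + 1), (-1) ^ j * (k.choose j : ℝ) * N (a + j)

/-- JOB BIN: differences of binomial probabilities.  Proof.  For finitely supported `u : ℤ → ℝ` let `|u|` be the
sum of absolute values; `|u * v| ≤ |u| |v|` for convolutions (or: coefficients of polynomials).  `k = 0` is clear.
For `k ≥ 1` let `m = K / k` (natural number division), `K = k m + ρ`.  The `k`-th difference of the binomial
distribution `Bin(K)` is, up to a shift and sign, the convolution of `Bin(ρ)` and of `k` copies of the first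
difference of `Bin(m)`; `Bin(m)` is unimodal, so the sum of the absolute values of its first difference is
`2 max_j C(m,j) 2^{-m} ≤ 2 / √m` for `m ≥ 1` (`Nat.choose_le_centralBinom`-type bounds), and `≤ 2` always.  So the
sum is at most `(2 / √m)^k ≤ C_k K^{-k/2}` for `K ≥ k`, and `≤ 2^k` for `K < k`. -/
def S_bin : Prop := ∀ k : ℕ, ∃ C : ℝ, 0 < C ∧ ∀ K : ℕ, 1 ≤ K → ∀ S : Finset ℤ,
  ∑ a ∈ S, |∑ j ∈ range (k + 1), (-1) ^ j * (k.choose j : ℝ) *
    (if 0 ≤ a + j then (K.choose (a + j).toNat : ℝ) / 2 ^ K else 0)| ≤ C * (K : ℝ) ^ (-(k : ℝ) / 2)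

/-- JOB DIF (uses `S_abs`, `S_bin`): all differences.  Proof.  `S_abs` with `H β j κ = 1[β + j = a']` writes
`NA X A a'` as the sum over `x ∈ X` of `C(K, a' - β) 2^{-K}` (`β = A x - Dn x`, `K = (F x).card`), hence
`dk k (NA X A) a` as the sum over `x` of the `k`-th difference of the binomial distribution at `a - β`; use
`S_bin` for each `x` (`K ≥ κ`). -/
def S_dif : Prop := ∀ k : ℕ, ∃ C : ℝ, 0 < C ∧ ∀ (α : Type) (X : Finset α) (F : α → Finset ℕ)
  (g : α → ℕ → α) (b : α → ℕ → Prop) (A : α → ℤ), Flips X F g b A → ∀ κ : ℝ, 0 < κ →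
  (∀ x ∈ X, κ ≤ (F x).card) → ∀ S : Finset ℤ,
  ∑ a ∈ S, |dk k (NA X A) a| ≤ C * X.card * κ ^ (-(k : ℝ) / 2)

/-! ## Part 4: polygons -/

/-- polygons with dimensions in `B` and at least `κ` flippable corners -/
def XB (n : ℕ) (B : Set (ℕ × ℕ)) (κ : ℝ) : Finset (List Dir) :=
  (KP n).filter (fun w => dims w ∈ B ∧ κ ≤ ((Fl w).card : ℝ))

/-- the number of words of polygons with dimensions in `B` and area `a` -/
def NB (n : ℕ) (B : Set (ℕ × ℕ)) (a : ℤ) : ℝ :=
  (((KP n).filter (fun w => dims w ∈ B ∧ (ar w : ℤ) = a)).card : ℝ)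

/-- JOB FLP (uses `S_fla`, `S_flb`, `S_flc`, `S_fld`): `XB n B κ` is a system of flips.  Proof.  Put the
statements together; the state at `k` is the cell `cl w k` is enclosed. -/
def S_flp : Prop := ∀ (n : ℕ) (B : Set (ℕ × ℕ)) (κ : ℝ), 3 ≤ n →
  Flips (XB n B κ) Fl sw (fun w k => ins' w (cl w k)) (fun w => (ar w : ℤ)) ∧
  ∀ w ∈ XB n B κ, (Fl w).card ≤ n

/-- JOB FEW (uses `S_stp`, `S_fil`, `S_fle`): exponentially few polygons have few flippable corners.  Proof.
`occ Q0 w ≤ 16 card (Fl w)`, the pattern theorem, and the lower bound of `S_bnd`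
(`Pool.Agent.H739K.BND_proof`, `CONV_proof`): `card (KP n) ≥ mu^n exp(-K (log n)^9)`. -/
def S_few : Prop := ∃ ε δ C : ℝ, 0 < ε ∧ 0 < δ ∧ 0 < C ∧ ∀ n : ℕ, 3 ≤ n → n % 2 = 1 →
  0 < (KP n).card ∧
  (((KP n).filter (fun w => ((Fl w).card : ℝ) < ε * n)).card : ℝ) ≤ C * Real.exp (-δ * n) * (KP n).card

/-- JOB RAT (uses `S_rti`, `S_flp`, `S_few`): the ratio theorem.  Proof.  Let `M = card (KP n)`,
`X = XB n B (ε n)`, `N' = NA X ar ≤ N = NB n B`, `N - N' ≤ C e^{-δ₀ n} M` (`S_few`), `card X ≤ M`.  With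
`f(x) = x √(2 n log(2 M / x))` (increasing on `[0, M]`, `f(x) ≤ 2 n x √(..)`):
`|N'(a+1) - N'(a)| ≤ (f(N'(a)) + f(N'(a+1))) / (ε n)` (`S_rti`).  Let `N(a) ≥ e^{-δ n} M`, `δ ≤ δ₀ / 2` small.  Then
`N(a) - N'(a) ≤ C e^{-(δ₀-δ) n} N(a)`.  If `N'(a+1) ≥ 2 N'(a)` then `N'(a+1)/2 ≤ N'(a+1) - N'(a) ≤ 2 f(N'(a+1))/(ε n)`,
so `log(2 M / N'(a+1)) ≥ ε² n / 32`, which is impossible if `δ` is small and `n` is large.  So
`N'(a+1) ≤ 2 N'(a)`, `f(N'(a+1)) ≤ 2 f(N'(a))` (or `f(2x) ≤ 2 f(x)`), and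
`|N'(a+1) - N'(a)| ≤ 3 f(N'(a)) / (ε n) ≤ K N(a) √((1 + log(M/N(a)))/n)`.  The error terms `C e^{-δ₀ n} M` are
`≤ C e^{-(δ₀ - δ) n} N(a)`, smaller than `N(a) K' / √n`.  For `a - 1` in place of `a + 1` the same.  Small `n`: choose
`K` large (`N(a±1) ≤ M ≤ e^{δ n} N(a)`). -/
def S_rat : Prop := ∃ K δ : ℝ, 0 < K ∧ 0 < δ ∧ ∀ n : ℕ, 3 ≤ n → n % 2 = 1 → ∀ (B : Set (ℕ × ℕ)) (a a' : ℤ),
  (a' = a + 1 ∨ a' = a - 1) → Real.exp (-δ * n) * (KP n).card ≤ NB n B a →
  |NB n B a' / NB n B a - 1| ≤ K * Real.sqrt ((1 + Real.log ((KP n).card / NB n B a)) / n)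

/-- JOB CHP (uses `S_chr`, `S_flp`, `S_few`): characteristic function and residue classes.  Proof.  (1)
`|cos(t/2)| ≤ e^{-t²/8}` for `|t| ≤ π` (`cos y ≤ e^{-y²/2}` for `|y| ≤ π/2`), so the sum over `XB n B (ε n)` is at
most `e^{-ε n t²/8} M`, the rest is `≤ C e^{-δ₀ n} M ≤ C e^{-δ₀ n t²/π²} M`.  (2)
`1[a ≡ c mod q] = (1/q) ∑_{l<q} e^{2πi l (a - c)/q}`; the terms `l ≠ 0` are bounded by (1) with
`t = 2π l/q` or `2π(l-q)/q`, `|t| ≥ 2π/q`. -/
def S_chp : Prop := ∃ K δ : ℝ, 0 < K ∧ 0 < δ ∧ ∀ n : ℕ, 3 ≤ n → n % 2 = 1 → ∀ B : Set (ℕ × ℕ),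
  (∀ t : ℝ, |t| ≤ Real.pi → ‖∑ w ∈ (KP n).filter (fun w => dims w ∈ B),
    Complex.exp (Complex.I * t * (ar w : ℤ))‖ ≤ K * Real.exp (-δ * n * t ^ 2) * (KP n).card) ∧
  ∀ (q : ℕ) (c : ℤ), 1 ≤ q →
    |(((KP n).filter (fun w => dims w ∈ B ∧ (q : ℤ) ∣ (ar w : ℤ) - c)).card : ℝ) -
      ((KP n).filter (fun w => dims w ∈ B)).card / q| ≤ K * Real.exp (-δ * n / q ^ 2) * (KP n).card

/-- JOB DFP (uses `S_dif`, `S_flp`, `S_few`): all differences of the number of polygons.  Proof.  `NB = NA (XB n B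
(ε n)) ar + rest` with `∑_a rest(a) ≤ C e^{-δ₀ n} M`; `∑_a |dk k rest a| ≤ 2^k C e^{-δ₀ n} M ≤ C' n^{-k/2} M`. -/
def S_dfp : Prop := ∀ k : ℕ, ∃ K : ℝ, 0 < K ∧ ∀ n : ℕ, 3 ≤ n → n % 2 = 1 →
  ∀ (B : Set (ℕ × ℕ)) (S : Finset ℤ), ∑ a ∈ S, |dk k (NB n B) a| ≤ K * (KP n).card * (n : ℝ) ^ (-(k : ℝ) / 2)

/-! ## Part 5: the area is larger than the trivial lower bound -/

/-- JOB VER: crossing parities.  Two horizontally adjacent cells have different states iff the vertical edge
between them belongs to the polygon; two vertically adjacent cells iff the horizontal edge between them does.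
Proof.  `m = 2N ≥ 4`, `f` a loop.  Vertical neighbours `(a,b-1)`, `(a,b)`: the edges above `(a,b-1)` are those above
`(a,b)` and the edge `(a,b)-(a+1,b)` if it is in the polygon (at most one `k`, by injectivity, `m ≥ 4`; see
`H739K/HOR.lean`).  Horizontal neighbours `(a-1,b)`, `(a,b)`: count the polygon edges at the polygon sites
`(a,y)`, `y > b`: each such site has two edges, so `#(horizontal edges above (a-1,b)) + #(horizontal edges above
(a,b)) + 2 #(vertical edges between sites (a,y), y > b) + [edge (a,b)-(a,b+1)] = 2 #sites`. -/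
def S_ver : Prop := ∀ (m : ℕ) (f : ZMod m → ℤ × ℤ), 4 ≤ m → IsLoop m f →
  (∀ a b : ℤ, (¬ (Encl m f (a, b) ↔ Encl m f (a, b - 1))) ↔
    ∃ k, (f k = (a, b) ∧ f (k + 1) = (a + 1, b)) ∨ (f k = (a + 1, b) ∧ f (k + 1) = (a, b))) ∧
  (∀ a b : ℤ, (¬ (Encl m f (a, b) ↔ Encl m f (a - 1, b))) ↔
    ∃ k, (f k = (a, b) ∧ f (k + 1) = (a, b + 1)) ∨ (f k = (a, b + 1) ∧ f (k + 1) = (a, b)))

/-- JOB LOW (uses `S_ver`): the trivial lower bound `n - 1` for the area of a polygon of perimeter `2n`.  Proof.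
Let `S` be the finite set of enclosed cells (`finite_encl` in `H739K/HOR.lean`), `A = card S`.  By `S_ver` the
edges of the polygon are exactly the edges between a cell of `S` and a cell outside `S`.  Counting the four sides of
the cells of `S`: `4 A = 2 E + m` where `E` is the number of pairs of adjacent cells of `S`, `m = 2n` the number of
edges of the polygon.  `S` is connected (side adjacency): if `S = S1 ∪ S2` with `S1, S2` nonempty, disjoint and
without adjacent pairs, then the set `G` of edges between `S1` and its complement is a nonempty set of edges of the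
polygon, and it has even degree at every vertex (each of the four cells at a vertex is in `S1` or not: the number of
changes around a vertex is even); since every vertex of the polygon has exactly two polygon edges and the polygon
is one cycle (`f k`, `k → k+1`), `G` contains all edges; the same for `S2`; but an edge belongs to the boundary of
`S1` and of `S2` only if its two sides are in `S1` and `S2`, and these are not adjacent.  A connected graph with `A`
vertices has at least `A - 1` edges (`SimpleGraph.Connected.card_vert_le_card_edgeSet_add_one`).  So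
`2 n = 4 A - 2 E ≤ 4 A - 2 (A - 1) = 2 A + 2`. -/
def S_low : Prop := ∀ (m : ℕ) (f : ZMod m → ℤ × ℤ), 4 ≤ m → IsLoop m f → m ≤ 2 * area m f + 2

/-- JOB MEA (uses `S_low`, `S_flp`, `S_few`, `S_abs`, `S_mgf`, `H739K.CONV_proof`): the area is rarely small.  Proof.
(1) `ar w - Dn w` is the area of a polygon in the class (flip all enclosed flippable cells, induction on `Dn`), so
`(n + 1) / 2 - 1 ≤ ar w - Dn w` for `w ∈ KP n` (`S_low` with `m = n + 1`).  (2) By `S_mgf` with `θ > 0` small the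
number of `w ∈ XB n univ (ε n)` with `Dn w ≤ (Fl w).card / 4` is at most `e^{-θ ε n/2} e^{θ² n/2} card`, so at most
`e^{-c n} card (KP n)`.  (3) So all but `C e^{-c n} card (KP n)` words have `ar w ≥ (n-1)/2 + ε n/4`.  The mean
follows.  (4) the variance: second part of `S_mgf` and `S_few`. -/
def S_mea : Prop := ∃ δ C : ℝ, 0 < δ ∧ 0 < C ∧ ∀ n : ℕ, 3 ≤ n → n % 2 = 1 →
  (((KP n).filter (fun w => (ar w : ℝ) ≤ (1 + δ) * ((n + 1) / 2))).card : ℝ) ≤
    C * Real.exp (-δ * n) * (KP n).card ∧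
  ∀ y : ℝ, (δ * n - C) * (KP n).card ≤ ∑ w ∈ KP n, ((ar w : ℝ) - y) ^ 2

end

end Pool.Agent.Q91.PT
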