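import Pool.Agent.Q91.PT.Stm

/-!
# Project PT (helper91): from words to loops, final statements
-/

set_option autoImplicit false

namespace Pool.Agent.Q91.PT

open Finset Pool.Agent.H976R2 Pool.Agent.H976R2.Lip Pool.Agent.H739K Pool.Agent.H924P
open scoped Classical

noncomputable section

/-- the number of rooted oriented loops with `2n` steps with (width, height) in `B` and area in `T` -/
def LC (n : ℕ) (B : Set (ℕ × ℕ)) (T : Set ℤ) : ℕ :=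
  Nat.card {f : ZMod (2 * n) → ℤ × ℤ // IsLoop (2 * n) f ∧
    (width (2 * n) f, height (2 * n) f) ∈ B ∧ (area (2 * n) f : ℤ) ∈ T}

/-- JOB CNV: loops and words.  Proof.  `CONV_proof` (`Pool/Agent/H739K/CONV.lean`, statement `S_conv` in
`H739K/Defs.lean`) for indicator functions `F` (real part and imaginary part of `G` in (2)); for `w ∈ KP (2 N - 1)`
we have `w.length + 1 = 2 N`, so `ar w = area (2 N) (lp (2 N) w)` and
`dims w = (width (2 N) (lp (2 N) w), height (2 N) (lp (2 N) w))` (rewrite the length: `obtain ⟨m, hm⟩`, `subst`).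
The set of loops is finite (`finite_loops` or from its `ncard` being positive / from the injection into words). -/
def S_cnv : Prop := ∀ N : ℕ, 2 ≤ N →
  (∀ (B : Set (ℕ × ℕ)) (T : Set ℤ), LC N B T =
    ((KP (2 * N - 1)).filter (fun w => dims w ∈ B ∧ (ar w : ℤ) ∈ T)).card) ∧
  (∀ (B : Set (ℕ × ℕ)) (G : ℕ → ℂ),
    ∑ᶠ f ∈ {f : ZMod (2 * N) → ℤ × ℤ | IsLoop (2 * N) f ∧ (width (2 * N) f, height (2 * N) f) ∈ B},
      G (area (2 * N) f) = ∑ w ∈ (KP (2 * N - 1)).filter (fun w => dims w ∈ B), G (ar w)) ∧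
  (∀ G : ℕ → ℝ, ∑ᶠ f ∈ {f : ZMod (2 * N) → ℤ × ℤ | IsLoop (2 * N) f}, G (area (2 * N) f) =
    ∑ w ∈ KP (2 * N - 1), G (ar w)) ∧
  {f : ZMod (2 * N) → ℤ × ℤ | IsLoop (2 * N) f}.ncard = (KP (2 * N - 1)).card

/-- the number of self-avoiding polygons of perimeter `2n` up to translation with (width, height) in `B` and area
in `T` (rooted oriented loops divided by `4n`) -/
def pl (n : ℕ) (B : Set (ℕ × ℕ)) (T : Set ℤ) : ℝ := (LC n B T : ℝ) / (4 * (n : ℝ))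

/-- JOB FN1 (uses `S_cnv`, `S_few`, `S_rat`): the ratio theorem for loops.  Proof.  `n ↦ 2 n - 1` (odd, `≥ 3`),
`pl n B {a} = NB (2n-1) B a / (4n)`, `pl n univ univ = card (KP (2n-1)) / (4n)`; `1/(2n-1) ≤ 1/n`. -/
def S_fn1 : Prop := ∃ K δ : ℝ, 0 < K ∧ 0 < δ ∧ ∀ n : ℕ, 2 ≤ n → 0 < pl n Set.univ Set.univ ∧
  ∀ (B : Set (ℕ × ℕ)) (a a' : ℤ), (a' = a + 1 ∨ a' = a - 1) →
    Real.exp (-δ * n) * pl n Set.univ Set.univ ≤ pl n B {a} →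
    |pl n B {a'} / pl n B {a} - 1| ≤
      K * Real.sqrt ((1 + Real.log (pl n Set.univ Set.univ / pl n B {a})) / n)

/-- JOB FN2 (uses `S_cnv`, `S_chp`): characteristic function and residue classes for loops. -/
def S_fn2 : Prop := ∃ K δ : ℝ, 0 < K ∧ 0 < δ ∧ ∀ n : ℕ, 2 ≤ n → ∀ B : Set (ℕ × ℕ),
  (∀ t : ℝ, |t| ≤ Real.pi →
    ‖∑ᶠ f ∈ {f : ZMod (2 * n) → ℤ × ℤ | IsLoop (2 * n) f ∧ (width (2 * n) f, height (2 * n) f) ∈ B},
      Complex.exp (Complex.I * t * (area (2 * n) f : ℂ))‖ / (4 * (n : ℝ)) ≤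
      K * Real.exp (-δ * n * t ^ 2) * pl n Set.univ Set.univ) ∧
  ∀ (q : ℕ) (c : ℤ), 1 ≤ q →
    |pl n B {a | (q : ℤ) ∣ a - c} - pl n B Set.univ / q| ≤
      K * Real.exp (-δ * n / q ^ 2) * pl n Set.univ Set.univ

/-- JOB FN3 (uses `S_cnv`, `S_dfp`): differences for loops.  (`(2n-1)^(-k/2) ≤ n^(-k/2)`.) -/
def S_fn3 : Prop := ∀ k : ℕ, ∃ K : ℝ, 0 < K ∧ ∀ n : ℕ, 2 ≤ n → ∀ (B : Set (ℕ × ℕ)) (S : Finset ℤ),
  ∑ a ∈ S, |∑ j ∈ range (k + 1), (-1) ^ j * (k.choose j : ℝ) * pl n B {a + (j : ℤ)}| ≤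
    K * pl n Set.univ Set.univ * (n : ℝ) ^ (-(k : ℝ) / 2)

/-- the mean of `G (area)` over the loops with `2n` steps -/
def EA (n : ℕ) (G : ℝ → ℝ) : ℝ :=
  (∑ᶠ f ∈ {f : ZMod (2 * n) → ℤ × ℤ | IsLoop (2 * n) f}, G (area (2 * n) f)) /
    ({f : ZMod (2 * n) → ℤ × ℤ | IsLoop (2 * n) f}.ncard : ℝ)

/-- JOB FN4 (uses `S_cnv`, `S_few`, `S_mea`): lower bounds for the area of loops.  Proof.  From `S_mea` with
`2 n - 1`, `((2n-1) + 1)/2 = n`.  (2): mean `≥ (1+δ) n (1 - C e^{-δ (2n-1)}) ≥ (1 + δ/2) n` for large `n`.  (3):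
`(δ (2n-1) - C)`. -/
def S_fn4 : Prop := ∃ δ C : ℝ, 0 < δ ∧ 0 < C ∧
  (∀ n : ℕ, 2 ≤ n → pl n Set.univ {a | (a : ℝ) ≤ (1 + δ) * n} ≤
    C * Real.exp (-δ * n) * pl n Set.univ Set.univ) ∧
  (∀ᶠ n : ℕ in Filter.atTop, (1 + δ) * n ≤ EA n (fun x => x)) ∧
  ∀ᶠ n : ℕ in Filter.atTop, ∀ y : ℝ, δ * n ≤ EA n (fun x => (x - y) ^ 2)

end

end Pool.Agent.Q91.PT
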