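import Pool.Agent.Q91.PT.Stm2

/-!
# Project PT (helper91), part 6: the ratio theorem in the perimeter at a FIXED area

The number `N_n(a)` of polygon words of length `n` with area `a` satisfies `N_{n+2}(a) / N_n(a) → mu ^ 2`,
uniformly in the areas `a` with `log (M_n / N_n(a)) = o(n^{1/3})`, `M_n` = all polygon words.  Method: the area
indicator is replaced by its average over the independent flips (`ph a`), which changes little under Kesten's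
insertion of a bump.
-/

set_option autoImplicit false

namespace Pool.Agent.Q91.PT

open Finset Pool.Agent.H976R2 Pool.Agent.H976R2.Lip Pool.Agent.H739K Pool.Agent.H924P
open scoped Classical

noncomputable section

/-- the state of a corner: its cell is enclosed -/
def bb (w : List Dir) (k : ℕ) : Prop := ins' w (cl w k)

/-- the area minus the number of enclosed flippable cells (invariant under flips) -/
def base (w : List Dir) : ℤ := (ar w : ℤ) - Dn Fl bb w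

/-- binomial probabilities -/
def bn (K : ℕ) (j : ℤ) : ℝ := if 0 ≤ j then (K.choose j.toNat : ℝ) / 2 ^ K else 0

/-- the average of the indicator of `area = a` over the flips -/
def ph (a : ℤ) (w : List Dir) : ℝ := bn (Fl w).card (a - base w)

/-- the number of words of polygons with area `a` -/
def Nn (n : ℕ) (a : ℤ) : ℝ := NB n Set.univ a

/-- JOB INS (uses `S_fla`, `H739K.S_area`): insertions of a bump change little.  Proof.  The sites of `w' = ins w i e`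
are those of `w` and two new ones `x1 = PP w i + dv e`, `x2 = PP w i + dv e + dv d`, `d = lt w i` (`PP_ins_le`,
`PP_ins_gt` in `H976R2/KLip.lean`).  The corner `k < i` of `w` is the corner `k` of `w'`, the corner `k ≥ i + 2` of `w`
is the corner `k + 2` of `w'` (same cell, same letters).  Such a corner is flippable in `w` iff it is in `w'`, except
if the vertex opposite to it is `x1` or `x2`; each of them lies in one even cell and different flippable corners have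
different cells, so this concerns at most 2 corners of `Fl w` (none of `Fl w'`).  The other corners: `k ∈ {i, i+1}` of
`w` and `k ∈ {i, i+1, i+2, i+3}` of `w'`.  So the cardinalities differ by at most 4.  The states at the common
corners agree except at the cell `(min .., min ..)` spanned by the bump (`AREAx.encl_same` in `H739K/AREA.lean`), at
most one corner; so `Dn` changes by at most 5; the area changes by at most 1 (`S_area`). -/
def S_ins : Prop := ∀ (w : List Dir) (i : ℕ) (e : Dir), 3 ≤ w.length → Saw w → sq w = 1 → (i, e) ∈ adm w →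
  |((Fl (ins w i e)).card : ℤ) - (Fl w).card| ≤ 10 ∧ |base (ins w i e) - base w| ≤ 10

/-- JOB BCM: comparison of binomial probabilities.  Proof.  One step in `j`:
`bn K (j+1) - bn K j = bn K j * (K - 2 j - 1) / (j + 1)` for `0 ≤ j ≤ K`, so it is at most
`4 bn K j (|2 j - K| + 1) / K` in absolute value if `|2 j - K| ≤ K / 2`.  One step in `K`:
`bn (K+1) j = (bn K j + bn K (j-1)) / 2`.  Iterate at most 20 steps as long as `|2 j - K| ≤ K / 4` and `K` is large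
(then all intermediate values are in the range, `bn` changes by bounded factors and `|2 j - K| + 1` by bounded
factors).  If `|2 j - K| > K / 4` then `bn K j ≤ exp(-(2j-K)^2/(2K)) ≤ e^{-K/32}` (`bn K j e^{θ (2j-K)} ≤ cosh(θ)^K`)
and `bn K' j'` is exponentially small as well.  For bounded `K`: all values are in `[0, 1]`, take `C` large. -/
def S_bcm : Prop := ∃ C c : ℝ, 0 < C ∧ 0 < c ∧ ∀ (K K' : ℕ) (j j' : ℤ), 1 ≤ K →
  |(K' : ℤ) - K| ≤ 10 → |j' - j| ≤ 20 →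
  |bn K' j' - bn K j| ≤ C * bn K j * ((|2 * (j : ℝ) - K| + 1) / K) + C * Real.exp (-c * K)

/-- JOB PHS (uses `S_abs`, `S_flp`): the sums of `ph a`.  Proof.  `S_abs` for `X = XB n univ κ` (a system of flips),
`H β j K = 1[β + j = a]`, respectively `1[β + j = a] (|2 j - K| + 1) / K` (for `β = base w`:
`2^{-K} ∑_j C(K,j) 1[β + j = a] g(j, K) = bn K (a - β) g(a - β, K)`). -/
def S_phs : Prop := ∀ n : ℕ, 3 ≤ n → ∀ a : ℤ, mm (ph a) n = Nn n a ∧ ∀ κ : ℝ, 0 < κ →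
  ∑ w ∈ XB n Set.univ κ, ph a w * ((|2 * ((a - base w : ℤ) : ℝ) - (Fl w).card| + 1) / (Fl w).card) =
    ∑ w ∈ (XB n Set.univ κ).filter (fun w => (ar w : ℤ) = a),
      (|2 * (Dn Fl bb w : ℝ) - (Fl w).card| + 1) / (Fl w).card

/-- JOB ENT (uses `S_mgf`): an entropy inequality.  Proof.  Let `Δ = K - 2D`.  By convexity of `exp`,
`exp(θ (1/N) ∑_Y |Δ|) ≤ (1/N) ∑_Y e^{θ|Δ|} ≤ (1/N) 2 card X e^{θ² n/2}`, `N = card Y`; take logarithms and
`θ = √(2 log(2 card X/N)/n)` (`n ≥ 1`; for `n = 0` all `Δ = 0`). -/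
def S_ent : Prop := ∀ (α : Type) (X : Finset α) (F : α → Finset ℕ)
  (g : α → ℕ → α) (b : α → ℕ → Prop) (A : α → ℤ), Flips X F g b A → ∀ n : ℕ,
  (∀ x ∈ X, (F x).card ≤ n) → ∀ Y : Finset α, Y ⊆ X → Y.Nonempty →
  ∑ x ∈ Y, |((F x).card : ℝ) - 2 * Dn F b x| ≤
    Y.card * Real.sqrt (2 * n * Real.log (2 * X.card / Y.card))

/-- the total change of the weight `φ` under all insertions into polygon words of length `n` -/
def DE (φ : List Dir → ℝ) (n : ℕ) : ℝ := ∑ w ∈ KP n, ∑ p ∈ adm w, |φ (ins w p.1 p.2) - φ w|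

/-- JOB DEL (uses `S_ins`, `S_bcm`, `S_phs`, `S_ent`, `S_flp`, `S_few`): the change of `ph a` under insertions.
Proof.  `ε, δ₀` from `S_few`.  For `w` with `(Fl w).card ≥ ε n`: each of the at most `2 n` terms (`AA_le`) is at most
`C ph a w (|2j-K|+1)/K + C e^{-c ε n}` (`S_ins`, `S_bcm`, `j = a - base w`).  The sum over these `w` is by `S_phs`
and `S_ent` (with `X = XB n univ (ε n)`, `Y` = those with area `a`) at most
`2 n C (N √(2 n log(2 M / N)) + N) / (ε n) + 2 n C e^{-cεn} M` (`card Y ≤ N = Nn n a`, `card X ≤ M`; the function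
`x √(log(2M/x))` is increasing on `[0, M]`).  The other `w`: at most `C e^{-δ₀ n} M` words, each with at most `2 n`
terms `≤ 1`.  (`N ≥ 1` if `N > 0`, `n log(2M/N) ≥ log 2 ≥ 1/2`.) -/
def S_del : Prop := ∃ C c : ℝ, 0 < C ∧ 0 < c ∧ ∀ n : ℕ, 3 ≤ n → n % 2 = 1 → ∀ a : ℤ,
  DE (ph a) n ≤ C * (Nn n a * Real.sqrt (n * Real.log (2 * (KP n).card / Nn n a)) +
    Real.exp (-c * n) * (KP n).card)

/-- JOB CVX (uses `H739K.S_bnd`): approximate logarithmic convexity for general weights.  Proof.  Exactly as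
`RATIO_proof` in `Pool/Agent/H739K/RATIO.lean`, from `RATIO.transfer'`: with `P φ` the weight extended by zero,
`S1 = ∑_{SW n} P φ RR`, `S2 = ∑_{SW n} P φ RR^2`: `|mm φ (n+2) - S1|`, `|mm φ (n+4) - ∑_{SW (n+2)} P φ RR|`,
`|∑_{SW (n+2)} P φ RR - S2|` are at most `D E` (use `RR_ins`, `RR_le`, `AA_le`; `0 ≤ φ ≤ 1`), `S1 ≤ 4000 mm φ n`,
`S1² ≤ mm φ n S2`.  So `mm φ (n+2)² ≤ (S1 + D E)² ≤ mm φ n (mm φ (n+4) + 2 D E) + 8000 D mm φ n E + D² E²`.  The last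
claim: `φ = 1`, `DE = 0`, `mm 1 n = card (KP n)`, `few_small`, `mm 1 (n+2) ≤ S1 + ..`. -/
def S_cvx : Prop := ∃ D : ℝ, 0 < D ∧ ∀ n : ℕ, 3 ≤ n → n % 2 = 1 →
  ((KP (n + 2)).card : ℝ) ≤ D * (KP n).card ∧
  ∀ (φ : List Dir → ℝ) (Er : ℝ),
  (∀ w : List Dir, n ≤ w.length → w.length ≤ n + 4 → Saw w → sq w = 1 → 0 ≤ φ w ∧ φ w ≤ 1) →
  Er = (DE φ n + DE φ (n + 2) + mm φ n + mm φ (n + 2)) / n + (few (n + 2)).card + (few (n + 4)).card →
  mm φ (n + 2) ^ 2 ≤ mm φ n * mm φ (n + 4) + D * (mm φ n + Er) * Er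

/-- JOB LOC (uses `S_del`, `S_cvx`, `S_phs`, `H739K.S_bnd`): local logarithmic convexity in the perimeter at a fixed
area.  Proof.  `φ = ph a`, `mm φ m = Nn m a` (`S_phs`), `0 ≤ ph a ≤ 1`.  Let `M = card (KP n)`,
`Q = Nn n a + Nn (n+2) a + e^{-L} M`.  `x √(log(2 M'/x))` is increasing on `[0, M']`, so with `M' = card (KP m)`,
`x = Nn m a`, `y = max x (e^{-L} M')`: `x √(log(2M'/x)) ≤ y √(log(2M'/y)) ≤ y √(L + 1)`, `m = n, n + 2`
(`card (KP (n+2)) ≤ D M`).  So `DE ≤ C' √(n L) Q + C' e^{-c n} M`.  `few (n+2), few (n+4) ≤ C e^{-c' n} M`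
(`Few.few_card`: `C 2.428^n`, `S_bnd`).  For `L ≤ c₁ n`, `c₁` small: `e^{-c n} M ≤ C'' √(L/n) e^{-L} M`.  Hence
`Er ≤ C₃ √(L/n) Q` and `(Nn n a + Er) Er ≤ C₄ √(L/n) Q²`. -/
def S_loc : Prop := ∃ C c : ℝ, 0 < C ∧ 0 < c ∧ ∀ n : ℕ, 3 ≤ n → n % 2 = 1 → ∀ (a : ℤ) (L : ℝ), 1 ≤ L →
  L ≤ c * n →
  Nn (n + 2) a ^ 2 ≤ Nn n a * Nn (n + 4) a +
    C * Real.sqrt (L / n) * (Nn n a + Nn (n + 2) a + Real.exp (-L) * (KP n).card) ^ 2

/-- JOB SEQ: real analysis.  Proof.  Let `ρ m = b (m+2) / b m`, `ε' = A √(δ H)` with `A` large, `c` so small that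
`ε' ≤ 1/2`; `J = ⌊ε'/(64 δ)⌋`.  UPPER BOUND: suppose `ρ n ≥ 1 + ε'`.  By induction on `i ≤ J` (`n + 2 i` is in the
window since `100 ≤ δ n`): `b (n+2i) ≥ b n ≥ e^{-H}` and `ρ (n+2i) ≥ (1+ε')(1-9δ)^i ≥ 1 + ε'/2`: if `b m ≥ e^{-H}` and
`ρ m ≥ 1` then `e^{-8H} ≤ b m ≤ b (m+2)`, so `b (m+2)² ≤ b m b (m+4) + 9 δ b (m+2)²`, i.e. `ρ (m+2) ≥ ρ m (1 - 9 δ)`.
So `e^{H} ≥ b (n+2J) ≥ e^{-H} (1+ε'/2)^J ≥ e^{-H + ε' J / 4}`, `ε' J ≤ 8 H`, but `ε' J ≥ ε'²/(128 δ) = A² H / 128`, a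
contradiction.  LOWER BOUND: suppose `b (n+2) ≤ (1 - ε') b n`.  Backwards step: let `b (m+2) ≥ e^{-H}` and
`b (m+4) ≤ (1-ε'') b (m+2)`, `0 < ε'' ≤ 1/2`.  Then `b (m+2)² ≤ b m (1-ε'') b (m+2) + δ (b m + 2 b (m+2))²`, so
`x = b m / b (m+2)` satisfies `1 ≤ x (1-ε'') + δ (x+2)²`; if `x ≤ 2` then `x (1-ε'') ≥ 1 - 16 δ`, and in all cases
`b (m+2) ≤ (1 - ε'' + 32 δ) b m`.  Start with `m + 2 = n`.  So `b (m+2) ≤ (1-ε'/2) b m` for
`m = n-2, n-4, ..., n-2J`, in particular `b` increases backwards (so always `b ≥ b n ≥ e^{-H}`) and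
`e^{H} ≥ b (n-2J) ≥ e^{-H} (1-ε'/2)^{-J} ≥ e^{-H + ε' J/2}`, a contradiction as before. -/
def S_seq : Prop := ∃ C c : ℝ, 0 < C ∧ 0 < c ∧ ∀ (n : ℕ) (H δ : ℝ) (b : ℕ → ℝ), 1 ≤ n → 1 ≤ H → 0 < δ →
  δ * H ≤ c → 100 ≤ δ * n →
  (∀ m : ℕ, n ≤ 2 * m → m ≤ 2 * n → m % 2 = n % 2 → 0 ≤ b m ∧ b m ≤ Real.exp H) →
  Real.exp (-H) ≤ b n →
  (∀ m : ℕ, n ≤ 2 * m → m + 4 ≤ 2 * n → m % 2 = n % 2 →
    b (m + 2) ^ 2 ≤ b m * b (m + 4) + δ * (b m + b (m + 2) + Real.exp (-8 * H)) ^ 2) →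
  |b (n + 2) / b n - 1| ≤ C * Real.sqrt (δ * H)

/-- the loss of the area `a`: `(log n)^2 + log (M_n / N_n(a))` -/
def hl (n : ℕ) (a : ℤ) : ℝ := Real.log n ^ 2 + Real.log ((KP n).card / Nn n a)

/-- JOB UPW (uses `S_loc`, `S_seq`, `H739K.S_bnd`): the ratio theorem at a fixed area.  Proof.  By
`TH508.LT.sq_PP2` and `card (KP (2N-1)) = 4 N PP N` (see the proof of `BND_proof`):
`mu^m e^{-K (log m)^2} ≤ card (KP m) ≤ mu^m e^{K (log m)^2}` for odd `m ≥ 3`.  `b m = Nn m a / mu^m`,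
`H = K' hl n a` with `K'` so large that `b m ≤ card (KP m) / mu^m ≤ e^H` in the window `n/2 ≤ m ≤ 2n`, and
`b n = e^{-log(M/N)} card (KP n) / mu^n ≥ e^{-H}`.  `S_loc` with `L = 10 H ≤ c m` (condition `hl^3 ≤ δ n`):
`e^{-L} card (KP m) / mu^m ≤ e^{-9H}`; `δ' := C' √(H/n)` for `S_seq` with `C'` large (`√(L/m) ≤ √(20 H/n)`; powers of
`mu`: `mu^{2m+4}` on both sides; `100 ≤ δ' n` since `H ≥ 1`, `n` large because of the condition).
`√(δ' H) = C'' (H^3/n)^{1/4}`. -/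
def S_upw : Prop := ∃ K δ : ℝ, 0 < K ∧ 0 < δ ∧ ∀ n : ℕ, 3 ≤ n → n % 2 = 1 → ∀ a : ℤ, 0 < Nn n a →
  hl n a ^ 3 ≤ δ * n →
  |Nn (n + 2) a / (H981.mu ^ 2 * Nn n a) - 1| ≤ K * (hl n a ^ 3 / n) ^ (1 / 4 : ℝ)

/-- JOB TVW (uses `S_upw`, `H739K.S_bnd`): total variation.  Proof.  Let `M_m = card (KP m)`, `q a = Nn n a / M_n`,
`q' a = Nn (n+2) a / M_{n+2}`, `r = (log n)^{3/2} / n^{1/4}`.  Good areas: `q a ≥ n^{-6}`; then
`hl n a ≤ 7 (log n)^2`, and `S_upw` gives `Nn (n+2) a = mu² Nn n a (1 + O(r))`.  There are at most `C n²` areas with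
`Nn n a > 0` (`area_le` in `H924P/Loop.lean`: `area ≤ (2 L)^2`, `L ≤ n + 1`), so the sum of `q` over the other areas is
at most `C n^{-4}`.  Also `M_{n+2} / (mu² M_n) = 1 + O(r)`: `≥` from the good areas; `≤`: the ratio theorem for all
polygons (`H739K.S_main`, `MAIN_proof` in `H739K/MAIN.lean`, with `φ = 1`; `rt n ≤ C r` since `(log n)^3 ≤ C n^{1/4}`;
or `All1.lean`).  So `q' a = q a (1 + O(r))` for good
`a`, the sum of `|q' - q|` over good `a` is `O(r)`, hence the sum of `q'` over the others is `1 - (1 + O(r))(1 - C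
n^{-4}) = O(r)`.  For small `n` the sum is at most 2. -/
def S_tvw : Prop := ∃ K : ℝ, 0 < K ∧ ∀ n : ℕ, 3 ≤ n → n % 2 = 1 → ∀ S : Finset ℤ,
  ∑ a ∈ S, |Nn (n + 2) a / (KP (n + 2)).card - Nn n a / (KP n).card| ≤
    K * (Real.log n ^ (3 / 2 : ℝ) / (n : ℝ) ^ (1 / 4 : ℝ))

/-- JOB FN5 (uses `S_cnv`, `S_few`, `S_upw`, `S_tvw`): for loops.  (`n ↦ 2n - 1`; `log(2n-1) ≤ 2 log n` for
`n ≥ 2`, so `hl (2n-1) a ≤ 4 (…)`; `pl n univ {a} = Nn (2n-1) a / (4n)`, `pl n univ univ = card (KP (2n-1)) / (4n)`;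
`pl (n+1) univ {a} / pl n univ {a} = (Nn (2n+1) a / Nn (2n-1) a) (n / (n+1))`, and `1/n` is smaller than the error
terms.) -/
def S_fn5 : Prop := ∃ K δ : ℝ, 0 < K ∧ 0 < δ ∧ ∀ n : ℕ, 2 ≤ n →
  (∀ a : ℤ, 0 < pl n Set.univ {a} →
    (Real.log n ^ 2 + Real.log (pl n Set.univ Set.univ / pl n Set.univ {a})) ^ 3 ≤ δ * n →
    |pl (n + 1) Set.univ {a} / (H981.mu ^ 2 * pl n Set.univ {a}) - 1| ≤
      K * ((Real.log n ^ 2 + Real.log (pl n Set.univ Set.univ / pl n Set.univ {a})) ^ 3 / n) ^ (1 / 4 : ℝ)) ∧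
  ∀ S : Finset ℤ,
    ∑ a ∈ S, |pl (n + 1) Set.univ {a} / pl (n + 1) Set.univ Set.univ -
      pl n Set.univ {a} / pl n Set.univ Set.univ| ≤
    K * (Real.log n ^ (3 / 2 : ℝ) / (n : ℝ) ^ (1 / 4 : ℝ))

end

end Pool.Agent.Q91.PT
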